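import Mathlib

/-! Finitely generated abelian groups: a bound for the torsion, residual finiteness, and the lemma
of Artin and Rees. -/

set_option autoImplicit false

open scoped DirectSum

namespace Pool.Agent.H.MP_59b15d_al.R

section

variable (V : Type*) [AddCommGroup V] [AddGroup.FG V]

theorem ab_struct : ∃ (t : ℕ) (ι : Type) (f : V →+ (ι → ℤ)), 0 < t ∧
    (∀ v, f v = 0 → t • v = 0) ∧ ∀ v : V, (∀ n : ℕ, 0 < n → ∃ w : V, v = n • w) → v = 0 := by
  classical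
  obtain ⟨n, ι, _, p, hp, e, ⟨φ⟩⟩ := AddCommGroup.equiv_free_prod_directSum_zmod V
  have h0 : ∀ i, 0 < p i ^ e i := fun i => pow_pos (hp i).pos _
  have ht : 0 < ∏ i, p i ^ e i := Finset.prod_pos fun i _ => h0 i
  have h1 : ∀ y : ⨁ i, ZMod (p i ^ e i), (∏ i, p i ^ e i) • y = 0 := by
    intro y
    refine DFinsupp.ext fun i => ?_
    obtain ⟨c, hc⟩ := Finset.dvd_prod_of_mem (fun i => p i ^ e i) (Finset.mem_univ i)
    rw [DFinsupp.smul_apply, hc, mul_comm, mul_smul]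
    have h2 : (p i ^ e i) • (y i) = 0 := by
      rw [nsmul_eq_mul, ZMod.natCast_self, zero_mul]
    rw [h2, smul_zero]
    rfl
  refine ⟨∏ i, p i ^ e i, Fin n,
    ((Finsupp.coeFnAddHom).comp (AddMonoidHom.fst (Fin n →₀ ℤ) _)).comp φ.toAddMonoidHom,
    ht, ?_, ?_⟩
  · intro v hv
    apply φ.injective
    rw [map_nsmul, map_zero]
    have h2 : (φ v).1 = 0 := by
      ext i
      exact congrFun hv i
    refine Prod.ext ?_ ?_
    · rw [Prod.smul_fst, h2, smul_zero]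
      rfl
    · rw [Prod.smul_snd]
      exact h1 _
  · intro v hv
    apply φ.injective
    rw [map_zero]
    have h2 : (φ v).1 = 0 := by
      ext i
      obtain ⟨w, hw⟩ := hv (((φ v).1 i).natAbs + 1) (Nat.succ_pos _)
      have h3 : (φ v).1 i = ((((φ v).1 i).natAbs + 1 : ℕ) : ℤ) * (φ w).1 i := by
        conv_lhs => rw [hw, map_nsmul, Prod.smul_fst, Finsupp.smul_apply, nsmul_eq_mul]
      have h4 : (φ v).1 i = 0 := by
        by_contra hne
        have h5 := Int.natAbs_dvd_natAbs.2 (Dvd.intro _ h3.symm)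
        rw [Int.natAbs_natCast] at h5
        have h6 := Nat.le_of_dvd (Int.natAbs_pos.2 hne) h5
        omega
      exact h4
    obtain ⟨w, hw⟩ := hv _ ht
    refine Prod.ext h2 ?_
    rw [hw, map_nsmul, Prod.smul_snd, h1]
    rfl

theorem tors_bound : ∃ t : ℕ, 0 < t ∧ ∀ (v : V) (k : ℕ), 0 < k → k • v = 0 → t • v = 0 := by
  obtain ⟨t, ι, f, ht, h1, -⟩ := ab_struct V
  refine ⟨t, ht, fun v k hk hv => h1 v ?_⟩
  have h2 : k • f v = 0 := by rw [← map_nsmul, hv, map_zero]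
  funext i
  have h3 := congrFun h2 i
  rw [Pi.smul_apply, nsmul_eq_mul, Pi.zero_apply] at h3
  rcases mul_eq_zero.1 h3 with h4 | h4
  · exact absurd (by exact_mod_cast h4) hk.ne'
  · exact h4

variable {V}

theorem ab_resid {x : V} (hx : x ≠ 0) : ∃ n : ℕ, 0 < n ∧ ∀ v, x ≠ n • v := by
  obtain ⟨t, ι, f, ht, -, h1⟩ := ab_struct V
  by_contra hne
  push Not at hne
  exact hx (h1 x hne)

/-- The lemma of Artin and Rees. -/
theorem artin_rees {W : Type*} [Group W] (c : W →* Multiplicative V) {e : ℕ} (he : 0 < e) :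
    ∃ E : ℕ, 0 < E ∧ ∀ (w : W) (v : V), c w = Multiplicative.ofAdd (E • v) →
      ∃ u : W, c w = c (u ^ e) := by
  obtain ⟨L, hL⟩ : ∃ L : AddSubgroup V, L =
      ((c.range.map (powMonoidHom e)).toAddSubgroup : AddSubgroup (Additive (Multiplicative V))) :=
    ⟨_, rfl⟩
  have hmem : ∀ x : V, x ∈ L ↔ ∃ u : W, Multiplicative.ofAdd x = c (u ^ e) := by
    intro x
    rw [hL]
    constructor
    · rintro ⟨_, ⟨u, rfl⟩, h⟩
      refine ⟨u, ?_⟩
      rw [map_pow]
      exact h.symm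
    · rintro ⟨u, h⟩
      refine ⟨c u, ⟨u, rfl⟩, ?_⟩
      rw [map_pow] at h
      exact h.symm
  have : AddGroup.FG (V ⧸ L) := inferInstance
  obtain ⟨t, ht, h1⟩ := tors_bound (V ⧸ L)
  refine ⟨t, ht, fun w v hw => ?_⟩
  have h2 : t • (v : V ⧸ L) = 0 := by
    refine h1 v (e * t) (Nat.mul_pos he ht) ?_
    rw [← QuotientAddGroup.mk_nsmul, QuotientAddGroup.eq_zero_iff, hmem]
    refine ⟨w, ?_⟩
    rw [map_pow, hw, ← ofAdd_nsmul, mul_smul]
  rw [← QuotientAddGroup.mk_nsmul, QuotientAddGroup.eq_zero_iff, hmem] at h2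
  obtain ⟨u, hu⟩ := h2
  exact ⟨u, by rw [hw, hu]⟩

end

end Pool.Agent.H.MP_59b15d_al.R
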