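import Pool.Agent.H.MP_59b15d_al.R.Nil
import Pool.Agent.H.MP_59b15d_al.h76m.Hd

/-! The cocycles of the automorphisms which are trivial modulo a term of the lower central series
of `K`. -/

set_option autoImplicit false

open scoped commutatorElement

namespace Pool.Agent.H.MP_59b15d_al.R

open Pool.MP_59b15d_al.H76 (trivMod mem_trivMod)

universe u

variable {G : Type u} [Group G]

/-- The elements which are fixed by `φ` modulo `N`. -/
def fixMod (N : Subgroup G) (hN : N.Normal) (φ : MulAut G) : Subgroup G where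
  carrier := {x | φ x * x⁻¹ ∈ N}
  one_mem' := by
    show φ 1 * 1⁻¹ ∈ N
    rw [map_one, inv_one, mul_one]
    exact N.one_mem
  mul_mem' := by
    intro x y hx hy
    show φ (x * y) * (x * y)⁻¹ ∈ N
    have h1 : φ (x * y) * (x * y)⁻¹ = (φ x * x⁻¹) * (x * (φ y * y⁻¹) * x⁻¹) := by
      rw [map_mul]
      group
    rw [h1]
    exact N.mul_mem hx (hN.conj_mem _ hy x)
  inv_mem' := by
    intro x hx
    show φ x⁻¹ * x⁻¹⁻¹ ∈ N
    have h1 : φ x⁻¹ * x⁻¹⁻¹ = x⁻¹ * (φ x * x⁻¹)⁻¹ * x⁻¹⁻¹ := by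
      rw [map_inv]
      group
    rw [h1]
    exact hN.conj_mem _ (N.inv_mem hx) x⁻¹

theorem mem_fixMod {N : Subgroup G} {hN : N.Normal} {φ : MulAut G} {x : G} :
    x ∈ fixMod N hN φ ↔ φ x * x⁻¹ ∈ N := Iff.rfl

/-- It is enough to check triviality modulo `N` on generators. -/
theorem trivMod_of_gen {N : Subgroup G} (hN : N.Normal) {φ : MulAut G} {S : Set G}
    (hS : Subgroup.closure S = ⊤) (h : ∀ s ∈ S, φ s * s⁻¹ ∈ N) : φ ∈ trivMod N := by
  have h1 : (⊤ : Subgroup G) ≤ fixMod N hN φ := by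
    rw [← hS, Subgroup.closure_le]
    exact h
  exact fun x => h1 (Subgroup.mem_top x)

/-- An automorphism which is trivial modulo `lc K (j + 1)` acts trivially on the layer of
`lc K (j + 1)`. -/
theorem layer_triv {K : Subgroup G} [K.Normal] {j : ℕ} {φ : MulAut G}
    (hφ : φ ∈ trivMod (lc K (j + 1))) {y : G} (hy : y ∈ lc K (j + 1)) :
    φ y * y⁻¹ ∈ lc K (j + 1 + 1) := by
  have hN := lc_normal K (j + 1 + 1)
  have h0 : lc K (j + 1) ≤ fixMod _ hN φ := by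
    rw [lc_succ, Subgroup.commutator_le]
    intro u hu k hk
    rw [mem_fixMod]
    obtain ⟨u', hu'⟩ : ∃ u', u' = φ u * u⁻¹ := ⟨_, rfl⟩
    obtain ⟨k', hk'⟩ : ∃ k', k' = φ k * k⁻¹ := ⟨_, rfl⟩
    have hu1 : u' ∈ lc K (j + 1) := hu' ▸ hφ u
    have hk1 : k' ∈ lc K (j + 1) := hk' ▸ hφ k
    have hu2 : φ u = u' * u := by rw [hu', inv_mul_cancel_right]
    have hk2 : φ k = k' * k := by rw [hk', inv_mul_cancel_right]
    have huK := lc_le K j hu
    have h1 : ⁅u, k'⁆ ∈ lc K (j + 1 + 1) := comm_mem' K huK hk1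
    have h2 : ⁅u', k' * k⁆ ∈ lc K (j + 1 + 1) :=
      comm_mem K hu1 (K.mul_mem (lc_le K _ hk1) hk)
    have h3 : ⁅u' * k', ⁅u, k⁆⁆ ∈ lc K (j + 1 + 1) :=
      comm_mem K (Subgroup.mul_mem _ hu1 hk1) (lc_le K _ (comm_mem K hu hk))
    have h4 : φ ⁅u, k⁆ * ⁅u, k⁆⁻¹ = (u' * ⁅u, k'⁆ * u'⁻¹) * ⁅u' * k', ⁅u, k⁆⁆ *
        (⁅u, k⁆ * ⁅u', k' * k⁆ * ⁅u, k⁆⁻¹) := by
      rw [map_commutatorElement, hu2, hk2]
      simp only [commutatorElement_def]
      group
    rw [h4]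
    exact Subgroup.mul_mem _ (Subgroup.mul_mem _ (hN.conj_mem _ h1 _) h3) (hN.conj_mem _ h2 _)
  exact h0 hy

section layer

variable (K : Subgroup G) [K.Normal] (j : ℕ)

/-- The layers of the lower central series of `K`. -/
abbrev Lay : Type u := lc K j ⧸ (lc K (j + 1)).subgroupOf (lc K j)

theorem lay_normal : ((lc K (j + 1)).subgroupOf (lc K j)).Normal := by
  have := lc_normal K (j + 1)
  infer_instance

instance : ((lc K (j + 1)).subgroupOf (lc K j)).Normal := lay_normal K j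

noncomputable instance : CommGroup (Lay K j) :=
  { (inferInstance : Group (lc K j ⧸ (lc K (j + 1)).subgroupOf (lc K j))) with
    mul_comm := by
      intro a b
      induction a using QuotientGroup.induction_on with | _ a => ?_
      induction b using QuotientGroup.induction_on with | _ b => ?_
      rw [← QuotientGroup.mk_mul, ← QuotientGroup.mk_mul, QuotientGroup.eq,
        Subgroup.mem_subgroupOf]
      have h1 : ⁅((b⁻¹ : lc K j) : G), ((a⁻¹ : lc K j) : G)⁆ ∈ lc K (j + 1) :=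
        comm_mem K (b⁻¹).2 (lc_le K j (a⁻¹).2)
      have h2 : (((a * b)⁻¹ * (b * a) : lc K j) : G) =
          ⁅((b⁻¹ : lc K j) : G), ((a⁻¹ : lc K j) : G)⁆ := by
        rw [commutatorElement_def]
        push_cast
        group
      rw [h2]
      exact h1 }

variable {K j}

/-- The class of an element of `lc K j`. -/
def cl (x : lc K j) : Lay K j := QuotientGroup.mk x

theorem cl_mul (x y : lc K j) : cl (x * y) = cl x * cl y := rfl

theorem cl_one : cl (1 : lc K j) = 1 := rfl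

theorem cl_inv (x : lc K j) : cl x⁻¹ = (cl x)⁻¹ := rfl

theorem cl_pow (x : lc K j) (n : ℕ) : cl (x ^ n) = (cl x) ^ n := by
  induction n with
  | zero => rfl
  | succ n ih => rw [pow_succ, pow_succ, cl_mul, ih]

theorem cl_eq_one {x : lc K j} : cl x = 1 ↔ (x : G) ∈ lc K (j + 1) := by
  unfold cl
  rw [QuotientGroup.eq_one_iff, Subgroup.mem_subgroupOf]

theorem cl_eq {x y : lc K j} (h : (x : G) * (y : G)⁻¹ ∈ lc K (j + 1)) : cl x = cl y := by
  rw [← mul_inv_eq_one, ← cl_inv, ← cl_mul, cl_eq_one]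
  exact h

omit [K.Normal] in
theorem cl_surj (a : Lay K j) : ∃ x : lc K j, cl x = a := QuotientGroup.mk_surjective a

theorem lay_fg (hK : K.FG) : Group.FG (Lay K j) := by
  obtain ⟨S, hS, hSf⟩ := (Subgroup.fg_iff K).1 hK
  obtain ⟨T, hT, h1, h2⟩ := lc_fg K hSf hS j
  have hfin : Finite T := hT
  refine Group.fg_iff.2 ⟨Set.range fun t : T => cl (⟨t.1, h1 t.2⟩ : lc K j), ?_,
    Set.finite_range _⟩
  rw [eq_top_iff]
  intro a _
  obtain ⟨x, rfl⟩ := cl_surj a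
  have hN := lc_normal K (j + 1)
  obtain ⟨w, hw, z, hz, hwz⟩ := Subgroup.mem_sup_of_normal_right.1 (h2 x.2)
  have key : ∀ w (hw : w ∈ Subgroup.closure T), ∃ hw' : w ∈ lc K j,
      cl ⟨w, hw'⟩ ∈ Subgroup.closure (Set.range fun t : T => cl (⟨t.1, h1 t.2⟩ : lc K j)) := by
    intro w hw
    induction hw using Subgroup.closure_induction with
    | mem t ht => exact ⟨h1 ht, Subgroup.subset_closure ⟨⟨t, ht⟩, rfl⟩⟩
    | one => exact ⟨Subgroup.one_mem _, Subgroup.one_mem _⟩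
    | mul a b _ _ iha ihb =>
      obtain ⟨ha, ha'⟩ := iha
      obtain ⟨hb, hb'⟩ := ihb
      exact ⟨Subgroup.mul_mem _ ha hb, Subgroup.mul_mem _ ha' hb'⟩
    | inv a _ iha =>
      obtain ⟨ha, ha'⟩ := iha
      exact ⟨Subgroup.inv_mem _ ha, Subgroup.inv_mem _ ha'⟩
  obtain ⟨hw1, hw2⟩ := key w hw
  have h3 : cl x = cl ⟨w, hw1⟩ := by
    symm
    apply cl_eq
    have h4 : (w : G) * (x : G)⁻¹ = w * z⁻¹ * w⁻¹ := by
      rw [← hwz]
      group
    show w * (x : G)⁻¹ ∈ _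
    rw [h4]
    exact hN.conj_mem _ (Subgroup.inv_mem _ hz) w
  rw [h3]
  exact hw2

theorem cl_pw {E : ℕ} {x : G} (hx : x ∈ lc K j) (hx' : x ∈ pw K E j) :
    ∃ v : Lay K j, cl ⟨x, hx⟩ = v ^ E := by
  have hN := lc_normal K (j + 1)
  obtain ⟨w, hw, z, hz, hwz⟩ := Subgroup.mem_sup_of_normal_right.1 hx'
  have key : ∀ w (hw : w ∈ Subgroup.closure ((fun y => y ^ E) '' (lc K j : Set G))),
      ∃ hw' : w ∈ lc K j, ∃ v : Lay K j, cl ⟨w, hw'⟩ = v ^ E := by
    intro w hw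
    induction hw using Subgroup.closure_induction with
    | mem w hw =>
      obtain ⟨y, hy, rfl⟩ := hw
      exact ⟨Subgroup.pow_mem _ hy E, cl ⟨y, hy⟩, cl_pow ⟨y, hy⟩ E⟩
    | one => exact ⟨Subgroup.one_mem _, 1, by rw [one_pow]; rfl⟩
    | mul a b _ _ iha ihb =>
      obtain ⟨ha, va, ha'⟩ := iha
      obtain ⟨hb, vb, hb'⟩ := ihb
      refine ⟨Subgroup.mul_mem _ ha hb, va * vb, ?_⟩
      rw [mul_pow, ← ha', ← hb']
      rfl
    | inv a _ iha =>
      obtain ⟨ha, va, ha'⟩ := iha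
      refine ⟨Subgroup.inv_mem _ ha, va⁻¹, ?_⟩
      rw [inv_pow, ← ha']
      rfl
  obtain ⟨hw1, v, hv⟩ := key w hw
  refine ⟨v, ?_⟩
  rw [← hv]
  symm
  apply cl_eq
  have h4 : w * x⁻¹ = w * z⁻¹ * w⁻¹ := by
    rw [← hwz]
    group
  show w * x⁻¹ ∈ _
  rw [h4]
  exact hN.conj_mem _ (Subgroup.inv_mem _ hz) w

end layer

end Pool.Agent.H.MP_59b15d_al.R
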