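import Pool.Agent.H.MP_59b15d_al.R.Main

/-! The automorphisms which are trivial modulo `K` and act trivially on `K / [K, K]`. -/

set_option autoImplicit false

open scoped commutatorElement

namespace Pool.Agent.H.MP_59b15d_al.R

open Pool.MP_59b15d_al.H76 (trivMod mem_trivMod trivMod_normal trivMod_finiteIndex trivMod_mono
  inf_char)

universe u

variable {G : Type u} [Group G]

section cocycle

variable (K : Subgroup G) [K.Normal] (j : ℕ) (U : Subgroup (MulAut G)) (S : Set G)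
  (h1 : ∀ φ ∈ U, φ ∈ trivMod (lc K j))
  (h2 : ∀ φ ∈ U, ∀ y ∈ lc K j, φ y * y⁻¹ ∈ lc K (j + 1))

/-- The cocycle, on generators. -/
noncomputable def cocU : U →* Multiplicative (S → Additive (Lay K j)) where
  toFun φ := Multiplicative.ofAdd fun s =>
    Additive.ofMul (cl ⟨φ.1 s * (s : G)⁻¹, h1 φ.1 φ.2 s⟩)
  map_one' := by
    apply Multiplicative.toAdd.injective
    funext s
    apply Additive.toMul.injective
    show cl ⟨(1 : MulAut G) s * (s : G)⁻¹, _⟩ = (1 : Lay K j)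
    rw [cl_eq_one]
    show (1 : MulAut G) s * (s : G)⁻¹ ∈ _
    rw [MulAut.one_apply, mul_inv_cancel]
    exact Subgroup.one_mem _
  map_mul' φ ψ := by
    apply Multiplicative.toAdd.injective
    funext s
    apply Additive.toMul.injective
    show cl ⟨(φ * ψ).1 s * (s : G)⁻¹, _⟩ =
      cl ⟨φ.1 s * (s : G)⁻¹, h1 φ.1 φ.2 s⟩ * cl ⟨ψ.1 s * (s : G)⁻¹, h1 ψ.1 ψ.2 s⟩
    rw [mul_comm, ← cl_mul]
    apply cl_eq
    have h3 := h2 φ.1 φ.2 _ (h1 ψ.1 ψ.2 s)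
    have h4 : (φ * ψ).1 s * (s : G)⁻¹ * ((ψ.1 s * (s : G)⁻¹) * (φ.1 s * (s : G)⁻¹))⁻¹ =
        φ.1 (ψ.1 s * (s : G)⁻¹) * (ψ.1 s * (s : G)⁻¹)⁻¹ := by
      show φ.1 (ψ.1 s) * _ * _ = _
      rw [map_mul, map_inv]
      group
    exact h4 ▸ h3

variable {K j U S h1 h2}

theorem cocU_apply (φ : U) (s : S) : Multiplicative.toAdd (cocU K j U S h1 h2 φ) s =
    Additive.ofMul (cl ⟨φ.1 s * (s : G)⁻¹, h1 φ.1 φ.2 s⟩) := rfl

theorem cocU_one (hS : Subgroup.closure S = ⊤) {φ : U} (h : cocU K j U S h1 h2 φ = 1) :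
    φ.1 ∈ trivMod (lc K (j + 1)) := by
  refine trivMod_of_gen (lc_normal K _) hS fun s hs => ?_
  have h3 := congrFun (congrArg Multiplicative.toAdd h) ⟨s, hs⟩
  rw [cocU_apply] at h3
  have h4 : cl (⟨φ.1 s * s⁻¹, h1 φ.1 φ.2 s⟩ : lc K j) = 1 := Additive.ofMul.injective h3
  exact cl_eq_one.1 h4

end cocycle

/-- The step for a group `U` of automorphisms which are trivial modulo `lc K j` and act trivially on
the layer of `lc K j`. -/
theorem stepU [Group.FG G] (K : Subgroup G) [K.Characteristic] (hK : K.FiniteIndex) (j : ℕ)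
    (U P : Subgroup (MulAut G)) (hP : P.relIndex U ≠ 0)
    (h1 : ∀ φ ∈ U, φ ∈ trivMod (lc K j))
    (h2 : ∀ φ ∈ U, ∀ y ∈ lc K j, φ y * y⁻¹ ∈ lc K (j + 1)) :
    ∃ Δ : Subgroup G, Δ.Characteristic ∧ Δ.FiniteIndex ∧
      ∀ φ ∈ U, φ ∈ trivMod Δ → ∃ p ∈ P ⊓ U, φ * p⁻¹ ∈ trivMod (lc K (j + 1)) := by
  obtain ⟨S, hS, hSf⟩ := Group.fg_iff.1 (inferInstance : Group.FG G)
  have hfinS : Finite S := hSf
  have hKfg : K.FG := (Group.fg_iff_subgroup_fg K).1 inferInstance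
  have hlay : Group.FG (Lay K j) := lay_fg hKfg
  have hadd : AddGroup.FG (Additive (Lay K j)) := inferInstance
  have hmod : Module.Finite ℤ (Additive (Lay K j)) := Module.Finite.iff_addGroup_fg.2 hadd
  have hfg : AddGroup.FG (S → Additive (Lay K j)) := Module.Finite.iff_addGroup_fg.1 inferInstance
  obtain ⟨e, he, hpow⟩ := exists_pow hP
  obtain ⟨E, hE, hAR⟩ := artin_rees (cocU K j U S h1 h2) he
  obtain ⟨Δ, hc, hf, h3⟩ := sep K hK j hE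
  refine ⟨Δ, hc, hf, fun φ hφ hφΔ => ?_⟩
  have h4 : ∀ s : S, ∃ v : Lay K j, cl ⟨φ s * (s : G)⁻¹, h1 φ hφ s⟩ = v ^ E :=
    fun s => cl_pw (h1 φ hφ s) (h3 _ (hφΔ s) (h1 φ hφ s))
  choose v hv using h4
  obtain ⟨u, hu⟩ := hAR ⟨φ, hφ⟩ (fun s => Additive.ofMul (v s)) (by
    apply Multiplicative.toAdd.injective
    funext s
    rw [cocU_apply]
    show Additive.ofMul (cl ⟨φ s * (s : G)⁻¹, h1 φ hφ s⟩) = E • Additive.ofMul (v s)
    rw [hv s]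
    rfl)
  refine ⟨u.1 ^ e, ⟨hpow u.1 u.2, U.pow_mem u.2 e⟩, ?_⟩
  have h5 : cocU K j U S h1 h2 (⟨φ, hφ⟩ * (u ^ e)⁻¹) = 1 := by
    rw [map_mul, map_inv, hu, mul_inv_cancel]
  exact cocU_one hS h5

/-- The automorphisms which are trivial modulo `K` and act trivially on `K / [K, K]`. -/
def torK (K : Subgroup G) (hK : K.Characteristic) : Subgroup (MulAut G) where
  carrier := {φ | φ ∈ trivMod K ∧ ∀ y ∈ K, φ y * y⁻¹ ∈ ⁅K, K⁆}
  one_mem' := by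
    refine ⟨Subgroup.one_mem _, fun y _ => ?_⟩
    rw [MulAut.one_apply, mul_inv_cancel]
    exact Subgroup.one_mem _
  mul_mem' := by
    rintro φ ψ ⟨h1, h2⟩ ⟨h3, h4⟩
    refine ⟨Subgroup.mul_mem _ h1 h3, fun y hy => ?_⟩
    have h5 : ψ y ∈ K := Pool.MP_59b15d_al.H76.apply_mem_of_char hK ψ hy
    have h6 := Subgroup.mul_mem _ (h2 _ h5) (h4 y hy)
    have h7 : φ (ψ y) * (ψ y)⁻¹ * (ψ y * y⁻¹) = (φ * ψ) y * y⁻¹ := by
      rw [MulAut.mul_apply]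
      group
    rwa [h7] at h6
  inv_mem' := by
    rintro φ ⟨h1, h2⟩
    refine ⟨Subgroup.inv_mem _ h1, fun y hy => ?_⟩
    have h5 : φ⁻¹ y ∈ K := Pool.MP_59b15d_al.H76.apply_mem_of_char hK φ⁻¹ hy
    have h6 := Subgroup.inv_mem _ (h2 _ h5)
    rw [MulAut.apply_inv_self, mul_inv_rev, inv_inv] at h6
    exact h6

theorem mem_torK {K : Subgroup G} {hK : K.Characteristic} {φ : MulAut G} :
    φ ∈ torK K hK ↔ φ ∈ trivMod K ∧ ∀ y ∈ K, φ y * y⁻¹ ∈ ⁅K, K⁆ := Iff.rfl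

/-- If `N` contains the automorphisms in `M` trivial modulo `[K, K]`, then it contains those which are
trivial modulo `K`, act trivially on `K / [K, K]` and are trivial modulo a suitable `Γ`. -/
theorem end_part [Group.FG G] (K : Subgroup G) (hc : K.Characteristic) (hK : K.FiniteIndex)
    (M N : Subgroup (MulAut G)) (hN : N.relIndex M ≠ 0)
    (h : ∀ φ ∈ M, φ ∈ trivMod ⁅K, K⁆ → φ ∈ N) :
    ∃ Γ : Subgroup G, Γ.Characteristic ∧ Γ.FiniteIndex ∧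
      ∀ φ ∈ M, φ ∈ trivMod K → (∀ y ∈ K, φ y * y⁻¹ ∈ ⁅K, K⁆) → φ ∈ trivMod Γ → φ ∈ N := by
  have hP : N.relIndex (M ⊓ torK K hc) ≠ 0 :=
    mt (Subgroup.relIndex_eq_zero_of_le_right inf_le_left) hN
  obtain ⟨Γ, hcΓ, hfΓ, h1⟩ := stepU K hK 0 (M ⊓ torK K hc) N hP
    (fun φ hφ => hφ.2.1) (fun φ hφ => hφ.2.2)
  refine ⟨Γ, hcΓ, hfΓ, fun φ hφ h2 h3 h4 => ?_⟩
  obtain ⟨p, hp, hp'⟩ := h1 φ ⟨hφ, h2, h3⟩ h4
  have h5 : φ * p⁻¹ ∈ N := h _ (M.mul_mem hφ (M.inv_mem hp.2.1)) hp'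
  have h6 := N.mul_mem h5 hp.1
  rwa [inv_mul_cancel_right] at h6

end Pool.Agent.H.MP_59b15d_al.R
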