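import Mathlib

/-! Crossed homomorphisms with values in `ℤ` twisted by a character with values in `±1`; the
homomorphisms on a normal subgroup `K` of finite index with `G / K` of exponent two are rational
combinations of restrictions of crossed homomorphisms. -/

set_option autoImplicit false

namespace Pool.Agent.H.MP_59b15d_al.R

variable {G : Type*} [Group G]

/-- `c` is a crossed homomorphism for the character `θ`. -/
def IsCr (θ : G →* ℤˣ) (c : G → ℤ) : Prop := ∀ g h, c (g * h) = c g + (θ g : ℤ) * c h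

/-- `f` is a homomorphism on `K`. -/
def HomOn (K : Subgroup G) (f : G → ℤ) : Prop := ∀ x ∈ K, ∀ y ∈ K, f (x * y) = f x + f y

theorem HomOn.one {K : Subgroup G} {f : G → ℤ} (hf : HomOn K f) : f 1 = 0 := by
  have h := hf 1 K.one_mem 1 K.one_mem
  rw [mul_one] at h
  linarith

theorem HomOn.inv {K : Subgroup G} {f : G → ℤ} (hf : HomOn K f) {x : G} (hx : x ∈ K) :
    f x⁻¹ = - f x := by
  have h := hf x hx x⁻¹ (K.inv_mem hx)
  rw [mul_inv_cancel, hf.one] at h
  linarith

theorem HomOn.conj {K : Subgroup G} {f : G → ℤ} (hf : HomOn K f) {x y : G} (hx : x ∈ K)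
    (hy : y ∈ K) : f (x * y * x⁻¹) = f y := by
  rw [hf _ (K.mul_mem hx hy) _ (K.inv_mem hx), hf x hx y hy, hf.inv hx]
  ring

theorem HomOn.pow {K : Subgroup G} {f : G → ℤ} (hf : HomOn K f) {x : G} (hx : x ∈ K) (n : ℕ) :
    f (x ^ n) = n * f x := by
  induction n with
  | zero => rw [pow_zero, hf.one]; simp
  | succ n ih =>
    rw [pow_succ, hf _ (K.pow_mem hx n) _ hx, ih]
    push_cast
    ring

theorem IsCr.homOn {θ : G →* ℤˣ} {c : G → ℤ} (hc : IsCr θ c) {K : Subgroup G} (hK : K ≤ θ.ker) :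
    HomOn K c := by
  intro x hx y _
  rw [hc, MonoidHom.mem_ker.1 (hK hx)]
  simp

theorem IsCr.one {θ : G →* ℤˣ} {c : G → ℤ} (hc : IsCr θ c) : c 1 = 0 := by
  have h := hc 1 1
  rw [mul_one, map_one, Units.val_one, one_mul] at h
  linarith

theorem units_mul_self (u : ℤˣ) : (u : ℤ) * (u : ℤ) = 1 := by
  rw [← Units.val_mul, Int.units_mul_self, Units.val_one]

section transfer

variable (K : Subgroup G) [hN : K.Normal] (θ : G →* ℤˣ) (f : G → ℤ)

/-- The element of `K` which belongs to `g` and a coset. -/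
noncomputable def kel (g : G) (q : G ⧸ K) : G := (((g : G ⧸ K) * q).out)⁻¹ * g * q.out

theorem kel_mem (g : G) (q : G ⧸ K) : kel K g q ∈ K := by
  rw [← QuotientGroup.eq_one_iff]
  unfold kel
  rw [QuotientGroup.mk_mul, QuotientGroup.mk_mul, QuotientGroup.mk_inv, QuotientGroup.out_eq',
    QuotientGroup.out_eq', mul_assoc, inv_mul_cancel]

theorem kel_mul (g h : G) (q : G ⧸ K) :
    kel K (g * h) q = kel K g ((h : G ⧸ K) * q) * kel K h q := by
  unfold kel
  rw [QuotientGroup.mk_mul, mul_assoc (g : G ⧸ K)]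
  group

/-- The transfer. -/
noncomputable def trc [Fintype (G ⧸ K)] (g : G) : ℤ :=
  ∑ q : G ⧸ K, (θ ((g : G ⧸ K) * q).out : ℤ) * f (kel K g q)

variable {K θ f}

omit hN in
theorem theta_out [K.Normal] (hK : K ≤ θ.ker) (g : G) (q : G ⧸ K) :
    θ ((g : G ⧸ K) * q).out = θ g * θ q.out := by
  have h1 : (((g : G ⧸ K) * q).out)⁻¹ * (g * q.out) ∈ K := by
    have := kel_mem K g q
    unfold kel at this
    rwa [mul_assoc] at this
  have h2 := MonoidHom.mem_ker.1 (hK h1)
  rw [map_mul, map_inv, map_mul] at h2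
  exact (inv_mul_eq_one.1 h2)

theorem trc_isCr [Fintype (G ⧸ K)] (hK : K ≤ θ.ker) (hf : HomOn K f) : IsCr θ (trc K θ f) := by
  intro g h
  unfold trc
  rw [Finset.mul_sum]
  have h1 : ∑ q : G ⧸ K, (θ ((g : G ⧸ K) * q).out : ℤ) * f (kel K g q) =
      ∑ q : G ⧸ K, (θ ((g : G ⧸ K) * ((h : G ⧸ K) * q)).out : ℤ) * f (kel K g ((h : G ⧸ K) * q)) :=
    (Equiv.sum_comp (Equiv.mulLeft (h : G ⧸ K))
      (fun q => (θ ((g : G ⧸ K) * q).out : ℤ) * f (kel K g q))).symm
  rw [h1, ← Finset.sum_add_distrib]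
  refine Finset.sum_congr rfl fun q _ => ?_
  rw [kel_mul, hf _ (kel_mem K _ _) _ (kel_mem K _ _), QuotientGroup.mk_mul, mul_assoc (g : G ⧸ K),
    mul_add, theta_out hK g ((h : G ⧸ K) * q)]
  push_cast
  ring

theorem trc_apply [Fintype (G ⧸ K)]
    (he : ∀ g, ∀ k ∈ K, f (g * k * g⁻¹) = θ g * f k) {k : G} (hk : k ∈ K) :
    trc K θ f k = Fintype.card (G ⧸ K) * f k := by
  unfold trc
  have h1 : ∀ q : G ⧸ K, (θ ((k : G ⧸ K) * q).out : ℤ) * f (kel K k q) = f k := by
    intro q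
    have h2 : (k : G ⧸ K) = 1 := (QuotientGroup.eq_one_iff k).2 hk
    have h3 : kel K k q = (q.out)⁻¹ * k * (q.out)⁻¹⁻¹ := by
      unfold kel
      rw [h2, one_mul, inv_inv]
    rw [h3, he _ k hk, h2, one_mul, map_inv, Int.units_inv_eq_self, ← mul_assoc, units_mul_self,
      one_mul]
  rw [Finset.sum_congr rfl fun q _ => h1 q, Finset.sum_const, nsmul_eq_mul, Finset.card_univ]

end transfer

/-- A homomorphism on `K` which is an eigenvector for the action of every element of `G` is, up to a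
multiple, the restriction of a crossed homomorphism. -/
theorem exists_cr (K : Subgroup G) [K.Normal] (hK : K.FiniteIndex) {f : G → ℤ} (hf : HomOn K f)
    (he : ∀ g : G, ∃ u : ℤˣ, ∀ k ∈ K, f (g * k * g⁻¹) = u * f k) :
    ∃ (θ : G →* ℤˣ) (c : G → ℤ) (n : ℕ), 0 < n ∧ K ≤ θ.ker ∧ IsCr θ c ∧ ∀ k ∈ K, c k = n * f k := by
  by_cases h0 : ∀ k ∈ K, f k = 0
  · refine ⟨1, fun _ => 0, 1, Nat.one_pos, ?_, fun g h => by simp, fun k hk => by simp [h0 k hk]⟩
    rw [MonoidHom.ker_one]
    exact le_top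
  · push Not at h0
    obtain ⟨k₀, hk₀, hne⟩ := h0
    choose u hu using he
    have huniq : ∀ (a b : ℤˣ), (a : ℤ) * f k₀ = b * f k₀ → a = b := by
      intro a b hab
      exact Units.ext (mul_right_cancel₀ hne hab)
    have hmul : ∀ g h, u (g * h) = u g * u h := by
      intro g h
      apply huniq
      rw [← hu _ _ hk₀]
      have h1 : g * h * k₀ * (g * h)⁻¹ = g * (h * k₀ * h⁻¹) * g⁻¹ := by group
      have hN : K.Normal := inferInstance
      rw [h1, hu g _ (hN.conj_mem _ hk₀ h), hu h _ hk₀]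
      push_cast
      ring
    let θ : G →* ℤˣ := MonoidHom.mk' u hmul
    have hθ : ∀ g, θ g = u g := fun g => rfl
    have hker : K ≤ θ.ker := by
      intro k hk
      rw [MonoidHom.mem_ker, hθ]
      apply huniq
      rw [← hu _ _ hk₀, hf.conj hk hk₀]
      simp
    have : Fintype (G ⧸ K) := Fintype.ofFinite _
    refine ⟨θ, trc K θ f, Fintype.card (G ⧸ K), Fintype.card_pos, hker, trc_isCr hker hf,
      fun k hk => trc_apply (fun g k hk => hu g k hk) hk⟩

/-- The action of `g` on the homomorphisms on `K`, plus or minus the identity. -/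
theorem homOn_add (K : Subgroup G) [hN : K.Normal] {f : G → ℤ} (hf : HomOn K f) (g : G) (u : ℤˣ) :
    HomOn K fun x => f x + u * f (g * x * g⁻¹) := by
  intro x hx y hy
  have h1 : g * (x * y) * g⁻¹ = (g * x * g⁻¹) * (g * y * g⁻¹) := by group
  simp only
  rw [h1, hf x hx y hy, hf _ (hN.conj_mem x hx g) _ (hN.conj_mem y hy g)]
  ring

/-- If `φ` is trivial modulo `K` and fixes every crossed homomorphism on `K`, then it fixes every
homomorphism on `K`. -/
theorem hom_fix (K : Subgroup G) [hN : K.Normal] (hK : K.FiniteIndex) (h2 : ∀ g, g * g ∈ K)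
    {φ : MulAut G} (hφ : ∀ x, φ x * x⁻¹ ∈ K)
    (h : ∀ θ : G →* ℤˣ, K ≤ θ.ker → ∀ c, IsCr θ c → ∀ y ∈ K, c (φ y) = c y)
    {f : G → ℤ} (hf : HomOn K f) {y : G} (hy : y ∈ K) : f (φ y) = f y := by
  classical
  have hφK : ∀ x ∈ K, φ x ∈ K := fun x hx => by
    have h3 := K.mul_mem (hφ x) hx
    rwa [inv_mul_cancel_right] at h3
  have hq : ∀ a : G ⧸ K, a = a⁻¹ := by
    intro a
    induction a using QuotientGroup.induction_on with | _ a => ?_
    rw [← QuotientGroup.mk_inv, QuotientGroup.eq, ← mul_inv_rev]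
    exact K.inv_mem (h2 a)
  have hcomm : ∀ g h : G, g * h * (h * g)⁻¹ ∈ K := by
    intro a b
    rw [← QuotientGroup.eq_one_iff, QuotientGroup.mk_mul, QuotientGroup.mk_inv,
      QuotientGroup.mk_mul, QuotientGroup.mk_mul, mul_inv_eq_one, hq ((b : G ⧸ K) * a),
      mul_inv_rev, ← hq, ← hq]
  -- the induction over a finite set of elements
  have key : ∀ A : Finset G, (∀ f, HomOn K f →
      (∀ g ∈ A, ∃ u : ℤˣ, ∀ k ∈ K, f (g * k * g⁻¹) = u * f k) → ∀ y ∈ K, f (φ y) = f y) →
      ∀ f, HomOn K f → ∀ y ∈ K, f (φ y) = f y := by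
    intro A
    induction A using Finset.induction_on with
    | empty =>
      intro h3 f hf y hy
      exact h3 f hf (fun g hg => absurd hg (Finset.notMem_empty g)) y hy
    | insert g A _ ih =>
      intro h3
      apply ih
      intro f hf hA y hy
      have h4 : ∀ v : ℤˣ, f (φ y) + v * f (g * φ y * g⁻¹) = f y + v * f (g * y * g⁻¹) := by
        intro v
        refine h3 (fun x => f x + v * f (g * x * g⁻¹)) (homOn_add K hf g v) ?_ y hy
        intro a ha
        rcases Finset.mem_insert.1 ha with rfl | ha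
        · refine ⟨v, fun k hk => ?_⟩
          have h5 : a * (a * k * a⁻¹) * a⁻¹ = (a * a) * k * (a * a)⁻¹ := by group
          rw [h5, hf.conj (h2 a) hk, mul_add, ← mul_assoc (v : ℤ), units_mul_self]
          ring
        · obtain ⟨u, hu⟩ := hA a ha
          refine ⟨u, fun k hk => ?_⟩
          have h5 : g * (a * k * a⁻¹) * g⁻¹ =
              (g * a * (a * g)⁻¹) * (a * (g * k * g⁻¹) * a⁻¹) * (g * a * (a * g)⁻¹)⁻¹ := by group
          have h6 := hN.conj_mem k hk g
          rw [h5, hf.conj (hcomm g a) (hN.conj_mem _ h6 a), hu _ hk, hu _ h6]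
          ring
      have h5 := h4 1
      have h6 := h4 (-1)
      simp only [Units.val_one, one_mul, Units.val_neg, neg_mul] at h5 h6
      linarith
  have : Fintype (G ⧸ K) := Fintype.ofFinite _
  refine key (Finset.univ.image fun q : G ⧸ K => q.out) ?_ f hf y hy
  intro f hf hA y hy
  have h3 : ∀ g : G, ∃ u : ℤˣ, ∀ k ∈ K, f (g * k * g⁻¹) = u * f k := by
    intro g
    obtain ⟨u, hu⟩ := hA (g : G ⧸ K).out (Finset.mem_image_of_mem _ (Finset.mem_univ _))
    refine ⟨u, fun k hk => ?_⟩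
    obtain ⟨z, hz⟩ : ∃ z, z = ((g : G ⧸ K).out)⁻¹ * g := ⟨_, rfl⟩
    have h4 : z ∈ K := by
      rw [hz, ← QuotientGroup.eq, QuotientGroup.out_eq']
    have h5 : g * k * g⁻¹ = (g : G ⧸ K).out * (z * k * z⁻¹) * ((g : G ⧸ K).out)⁻¹ := by
      rw [hz]
      group
    rw [h5, hu _ (hN.conj_mem k hk z), hf.conj h4 hk]
  obtain ⟨θ, c, n, hn, hker, hc, hcf⟩ := exists_cr K hK hf h3
  have h4 := h θ hker c hc y hy
  rw [hcf _ (hφK y hy), hcf y hy] at h4
  exact mul_left_cancel₀ (by exact_mod_cast hn.ne') h4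

end Pool.Agent.H.MP_59b15d_al.R
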