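import Pool.Agent.H.MP_59b15d_al.R.End
import Pool.Agent.H.MP_59b15d_al.R.Tr

/-! From the twisted representations to the congruence subgroup property. -/

set_option autoImplicit false

open scoped commutatorElement

namespace Pool.Agent.H.MP_59b15d_al.R

open Pool.MP_59b15d_al.H76 (trivMod mem_trivMod trivMod_normal trivMod_finiteIndex trivMod_mono
  inf_char apply_mem_of_char)

universe u

variable {G : Type u} [Group G]

/-- A homomorphism from the first layer gives a homomorphism on `K`. -/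
theorem homOn_of_lay (K : Subgroup G) [K.Normal] (F : Additive (Lay K 0) →+ ℤ) :
    ∃ f : G → ℤ, HomOn K f ∧
      ∀ x (hx : x ∈ lc K 0), f x = F (Additive.ofMul (cl (⟨x, hx⟩ : lc K 0))) := by
  classical
  obtain ⟨f, hf⟩ : ∃ f : G → ℤ, f = fun x =>
      if hx : x ∈ lc K 0 then F (Additive.ofMul (cl (⟨x, hx⟩ : lc K 0))) else 0 := ⟨_, rfl⟩
  have h1 : ∀ x (hx : x ∈ lc K 0), f x = F (Additive.ofMul (cl (⟨x, hx⟩ : lc K 0))) := by
    intro x hx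
    rw [hf]
    exact dif_pos hx
  refine ⟨f, ?_, h1⟩
  intro x hx y hy
  have hx' : x ∈ lc K 0 := hx
  have hy' : y ∈ lc K 0 := hy
  have hxy' : x * y ∈ lc K 0 := Subgroup.mul_mem _ hx' hy'
  have h2 : cl (⟨x * y, hxy'⟩ : lc K 0) = cl ⟨x, hx'⟩ * cl ⟨y, hy'⟩ := cl_mul ⟨x, hx'⟩ ⟨y, hy'⟩
  rw [h1 x hx', h1 y hy', h1 _ hxy', ← map_add, ← ofMul_mul, h2]

/-- The automorphisms trivial modulo a suitable `Γ` which fix all homomorphisms on `K` act trivially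
on `K / [K, K]`. -/
theorem tors_sep [Group.FG G] (K : Subgroup G) [K.Characteristic] (hK : K.FiniteIndex) :
    ∃ Γ : Subgroup G, Γ.Characteristic ∧ Γ.FiniteIndex ∧ ∀ φ : MulAut G, φ ∈ trivMod Γ →
      (∀ f, HomOn K f → ∀ y ∈ K, f (φ y) = f y) → ∀ y ∈ K, φ y * y⁻¹ ∈ ⁅K, K⁆ := by
  have hKfg : K.FG := (Group.fg_iff_subgroup_fg K).1 inferInstance
  have hlay : Group.FG (Lay K 0) := lay_fg hKfg
  have hadd : AddGroup.FG (Additive (Lay K 0)) := inferInstance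
  obtain ⟨t, ι, F, ht, hF, -⟩ := ab_struct (Additive (Lay K 0))
  obtain ⟨t', ht', htb⟩ := tors_bound (Additive (Lay K 0))
  obtain ⟨Γ, hc, hf, h1⟩ := sep K hK 0 ht'
  refine ⟨Γ, hc, hf, fun φ hφ h2 y hy => ?_⟩
  have hy' : φ y ∈ K := apply_mem_of_char inferInstance φ hy
  have h3 : φ y * y⁻¹ ∈ lc K 0 := K.mul_mem hy' (K.inv_mem hy)
  obtain ⟨v, hv⟩ := cl_pw h3 (h1 _ (hφ y) h3)
  have h4 : F (Additive.ofMul (cl (⟨φ y * y⁻¹, h3⟩ : lc K 0))) = 0 := by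
    funext i
    obtain ⟨f, hf1, hf2⟩ := homOn_of_lay K ((Pi.evalAddMonoidHom (fun _ : ι => ℤ) i).comp F)
    have h5 := hf2 _ h3
    rw [hf1 _ hy' _ (K.inv_mem hy), h2 f hf1 y hy, hf1.inv hy, add_neg_cancel] at h5
    exact h5.symm
  have h5 := hF _ h4
  rw [hv, ofMul_pow, ← mul_smul] at h5
  have h7 := htb _ _ (Nat.mul_pos ht ht') h5
  rw [← ofMul_pow, ← hv] at h7
  have h8 : cl (⟨φ y * y⁻¹, h3⟩ : lc K 0) = 1 := Additive.ofMul.injective h7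
  have h9 : φ y * y⁻¹ ∈ lc K (0 + 1) := cl_eq_one.1 h8
  rw [lc_succ, lc_zero] at h9
  exact h9

/-- `φ` acts trivially on the crossed homomorphisms for `θ`, restricted to `K`. -/
def Triv (K : Subgroup G) (θ : G →* ℤˣ) (φ : MulAut G) : Prop :=
  ∀ c, IsCr θ c → ∀ y ∈ K, c (φ y) = c y

theorem Triv.mul {K : Subgroup G} (hK : K.Characteristic) {θ : G →* ℤˣ} {φ ψ : MulAut G}
    (h1 : Triv K θ φ) (h2 : Triv K θ ψ) : Triv K θ (φ * ψ) := by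
  intro c hc y hy
  rw [MulAut.mul_apply, h1 c hc _ (apply_mem_of_char hK ψ hy), h2 c hc y hy]

theorem Triv.inv {K : Subgroup G} (hK : K.Characteristic) {θ : G →* ℤˣ} {φ : MulAut G}
    (h1 : Triv K θ φ) : Triv K θ φ⁻¹ := by
  intro c hc y hy
  rw [← h1 c hc _ (apply_mem_of_char hK φ⁻¹ hy), MulAut.apply_inv_self]

theorem IsCr.comp {K : Subgroup G} {θ : G →* ℤˣ} (hK : K ≤ θ.ker) {φ : MulAut G}
    (hφ : φ ∈ trivMod K) {c : G → ℤ} (hc : IsCr θ c) : IsCr θ fun x => c (φ x) := by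
  intro g h
  have h1 : θ (φ g) = θ g := by
    have h2 := MonoidHom.mem_ker.1 (hK (hφ g))
    rwa [map_mul, map_inv, mul_inv_eq_one] at h2
  show c (φ (g * h)) = _
  rw [map_mul, hc, h1]

theorem Triv.conj {K : Subgroup G} (hK : K.Characteristic) {θ : G →* ℤˣ} (hθ : K ≤ θ.ker)
    {φ ψ : MulAut G} (h1 : Triv K θ φ) (hψ : ψ ∈ trivMod K) : Triv K θ (ψ * φ * ψ⁻¹) := by
  intro c hc y hy
  have h2 : c (ψ (φ (ψ⁻¹ y))) = c (ψ (ψ⁻¹ y)) :=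
    h1 _ (hc.comp hθ hψ) _ (apply_mem_of_char hK ψ⁻¹ hy)
  rw [MulAut.apply_inv_self] at h2
  exact h2

theorem chars_finite (K : Subgroup G) [K.Normal] (hK : K.FiniteIndex) :
    {θ : G →* ℤˣ | K ≤ θ.ker}.Finite := by
  have h1 : (Set.range fun ψ : G ⧸ K →* ℤˣ => ψ.comp (QuotientGroup.mk' K)).Finite := by
    have : Finite (G ⧸ K →* ℤˣ) := Finite.of_injective (fun ψ => (ψ : G ⧸ K → ℤˣ))
      DFunLike.coe_injective
    exact Set.finite_range _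
  refine h1.subset fun θ hθ => ⟨QuotientGroup.lift K θ hθ, ?_⟩
  ext x
  rfl

/-- Crossed homomorphisms modulo `m`. -/
theorem cr_cong [Group.FG G] (K : Subgroup G) [K.Characteristic] (hK : K.FiniteIndex) {m : ℕ}
    (hm : 0 < m) : ∃ Γ : Subgroup G, Γ.Characteristic ∧ Γ.FiniteIndex ∧
      ∀ φ : MulAut G, φ ∈ trivMod Γ → ∀ θ : G →* ℤˣ, K ≤ θ.ker → ∀ c, IsCr θ c → ∀ g,
        (m : ℤ) ∣ c (φ g) - c g := by
  obtain ⟨Δ, hc, hf, h1⟩ := sep K hK 0 hm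
  refine ⟨Δ ⊓ K, inf_char hc inferInstance, inferInstance, fun φ hφ θ hθ c hc g => ?_⟩
  obtain ⟨z, hz⟩ : ∃ z, z = φ g * g⁻¹ := ⟨_, rfl⟩
  have hzΔ : z ∈ Δ ⊓ K := hz ▸ hφ g
  have hzp : z ∈ pw K m 0 := h1 z hzΔ.1 hzΔ.2
  have hhom : HomOn K c := hc.homOn hθ
  have h2 : (m : ℤ) ∣ c z := by
    have h3 : pw K m 0 ≤ { carrier := {x | x ∈ K ∧ (m : ℤ) ∣ c x}
                           one_mem' := ⟨K.one_mem, by rw [hc.one]; exact dvd_zero _⟩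
                           mul_mem' := fun {a b} ha hb =>
                             ⟨K.mul_mem ha.1 hb.1, by
                               rw [hhom _ ha.1 _ hb.1]; exact dvd_add ha.2 hb.2⟩
                           inv_mem' := fun {a} ha => ⟨K.inv_mem ha.1, by
                               rw [hhom.inv ha.1]; exact ha.2.neg_right⟩ : Subgroup G } := by
      unfold pw
      rw [sup_le_iff, Subgroup.closure_le]
      refine ⟨?_, ?_⟩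
      · rintro _ ⟨y, hy, rfl⟩
        refine ⟨K.pow_mem hy m, ?_⟩
        show (m : ℤ) ∣ c (y ^ m)
        rw [hhom.pow hy]
        exact dvd_mul_right _ _
      · show ⁅K, K⁆ ≤ _
        rw [Subgroup.commutator_le]
        intro x hx y hy
        refine ⟨Subgroup.commutator_le_left K K (Subgroup.commutator_mem_commutator hx hy), ?_⟩
        rw [commutatorElement_def, hhom _ (K.mul_mem (K.mul_mem hx hy) (K.inv_mem hx)) _
          (K.inv_mem hy), hhom.conj hx hy, hhom.inv hy, add_neg_cancel]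
        exact dvd_zero _
    exact (h3 hzp).2
  have h3 : φ g = z * g := by
    rw [hz, inv_mul_cancel_right]
  rw [h3, hc, MonoidHom.mem_ker.1 (hθ hzΔ.2), Units.val_one, one_mul, add_sub_cancel_right]
  exact h2

/-- The congruence subgroup property above `[K, K]` from the isolation of the twisted
representations. -/
theorem cong_of_isolation [Group.FG G] (K : Subgroup G) [hc : K.Characteristic]
    (hK : K.FiniteIndex) (h2 : ∀ g, g * g ∈ K) (M N : Subgroup (MulAut G)) (hN : N.relIndex M ≠ 0)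
    (hMN : ∀ ψ ∈ M, ∀ n ∈ N, ψ * n * ψ⁻¹ ∈ N)
    (h : ∀ φ ∈ M, φ ∈ trivMod ⁅K, K⁆ → φ ∈ N)
    (iso : ∀ N' : Subgroup (MulAut G), N'.relIndex M ≠ 0 → (∀ ψ ∈ M, ∀ n ∈ N', ψ * n * ψ⁻¹ ∈ N') →
      ∀ θ : G →* ℤˣ, K ≤ θ.ker → ∃ m : ℕ, 0 < m ∧ ∀ φ ∈ M, φ ∈ trivMod K →
        (∀ c, IsCr θ c → ∀ g, (m : ℤ) ∣ c (φ g) - c g) →
        ∃ n ∈ N', n ∈ M ∧ n ∈ trivMod K ∧ (∀ θ' : G →* ℤˣ, K ≤ θ'.ker → θ' ≠ θ → Triv K θ' n) ∧
          ∀ c, IsCr θ c → ∀ y ∈ K, c (n y) = c (φ y)) :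
    ∃ Δ : Subgroup G, Δ.Characteristic ∧ Δ.FiniteIndex ∧ ∀ φ ∈ M, φ ∈ trivMod Δ → φ ∈ N := by
  classical
  obtain ⟨Γ₀, hc₀, hf₀, h₀⟩ := end_part K hc hK M N hN h
  obtain ⟨Γ₁, hc₁, hf₁, h₁⟩ := tors_sep K hK
  obtain ⟨N', hN'⟩ : ∃ N', N' = N ⊓ trivMod (Γ₀ ⊓ Γ₁) := ⟨_, rfl⟩
  have hc01 : (Γ₀ ⊓ Γ₁).Characteristic := inf_char hc₀ hc₁
  have hf01 : (Γ₀ ⊓ Γ₁).FiniteIndex := inferInstance
  have hrel : N'.relIndex M ≠ 0 := by
    have h1 := trivMod_finiteIndex hc01 hf01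
    have h2 : ((trivMod (Γ₀ ⊓ Γ₁)).subgroupOf M).FiniteIndex := inferInstance
    rw [hN']
    exact Subgroup.relIndex_inf_ne_zero hN h2.index_ne_zero
  have hMN' : ∀ ψ ∈ M, ∀ n ∈ N', ψ * n * ψ⁻¹ ∈ N' := by
    intro ψ hψ n hn
    rw [hN'] at hn ⊢
    exact ⟨hMN ψ hψ n hn.1, (trivMod_normal hc01).conj_mem n hn.2 ψ⟩
  have hiso := iso N' hrel hMN'
  have hΘ := chars_finite K hK
  choose! m hm hm' using hiso
  obtain ⟨Γ₂, hc₂, hf₂, h₂⟩ := cr_cong K hK (m := ∏ θ ∈ hΘ.toFinset, m θ)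
    (Finset.prod_pos fun θ hθ => hm θ (hΘ.mem_toFinset.1 hθ))
  refine ⟨(Γ₀ ⊓ Γ₁) ⊓ (Γ₂ ⊓ K), inf_char hc01 (inf_char hc₂ hc), inferInstance, fun φ hφ hφΔ => ?_⟩
  have hφ01 : φ ∈ trivMod (Γ₀ ⊓ Γ₁) := trivMod_mono inf_le_left hφΔ
  have hφ2 : φ ∈ trivMod Γ₂ := trivMod_mono (inf_le_right.trans inf_le_left) hφΔ
  have hφK : φ ∈ trivMod K := trivMod_mono (inf_le_right.trans inf_le_right) hφΔ
  have hφm : ∀ θ : G →* ℤˣ, K ≤ θ.ker → ∀ c, IsCr θ c → ∀ g, (m θ : ℤ) ∣ c (φ g) - c g := by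
    intro θ hθ c hc g
    refine dvd_trans ?_ (h₂ φ hφ2 θ hθ c hc g)
    exact_mod_cast Finset.dvd_prod_of_mem m (hΘ.mem_toFinset.2 hθ)
  -- the product of the isolated elements
  have key : ∀ A : Finset (G →* ℤˣ), (∀ θ ∈ A, K ≤ θ.ker) → ∃ n ∈ N', n ∈ M ∧ n ∈ trivMod K ∧
      (∀ θ ∈ A, Triv K θ (φ * n⁻¹)) ∧ ∀ θ : G →* ℤˣ, K ≤ θ.ker → θ ∉ A → Triv K θ n := by
    intro A
    induction A using Finset.induction_on with
    | empty =>
      intro _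
      refine ⟨1, N'.one_mem, M.one_mem, Subgroup.one_mem _,
        fun θ hθ => absurd hθ (Finset.notMem_empty θ), fun θ _ _ c _ y _ => ?_⟩
      rw [MulAut.one_apply]
    | insert θ₀ A hθ₀ ih =>
      intro hA
      obtain ⟨n, hn1, hn2, hn3, hn4, hn5⟩ := ih fun θ hθ => hA θ (Finset.mem_insert_of_mem hθ)
      have hk0 := hA θ₀ (Finset.mem_insert_self _ _)
      obtain ⟨n₀, h01, h02, h03, h04, h05⟩ := hm' θ₀ hk0 φ hφ hφK (hφm θ₀ hk0)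
      refine ⟨n₀ * n, N'.mul_mem h01 hn1, M.mul_mem h02 hn2, Subgroup.mul_mem _ h03 hn3, ?_, ?_⟩
      · intro θ hθ
        rcases Finset.mem_insert.1 hθ with rfl | hθA
        · have h3 : φ * (n₀ * n)⁻¹ = (φ * n₀⁻¹) * (n₀ * n⁻¹ * n₀⁻¹) := by group
          rw [h3]
          refine Triv.mul hc ?_ (Triv.conj hc hk0 ((hn5 θ hk0 hθ₀).inv hc) h03)
          intro c hcr y hy
          rw [MulAut.mul_apply, ← h05 c hcr _ (apply_mem_of_char hc n₀⁻¹ hy),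
            MulAut.apply_inv_self]
        · have h3 : φ * (n₀ * n)⁻¹ = (φ * n⁻¹) * n₀⁻¹ := by group
          have hne : θ ≠ θ₀ := fun h => hθ₀ (h ▸ hθA)
          rw [h3]
          exact Triv.mul hc (hn4 θ hθA) ((h04 θ (hA θ hθ) hne).inv hc)
      · intro θ hθ hθA
        rw [Finset.mem_insert, not_or] at hθA
        exact Triv.mul hc (h04 θ hθ hθA.1) (hn5 θ hθ hθA.2)
  obtain ⟨n, hn1, hn2, hn3, hn4, -⟩ := key hΘ.toFinset fun θ hθ => hΘ.mem_toFinset.1 hθ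
  have hn1' : n ∈ N ∧ n ∈ trivMod (Γ₀ ⊓ Γ₁) := by
    rw [hN'] at hn1
    exact hn1
  obtain ⟨t, ht⟩ : ∃ t, t = φ * n⁻¹ := ⟨_, rfl⟩
  have ht1 : t ∈ M := ht ▸ M.mul_mem hφ (M.inv_mem hn2)
  have ht2 : t ∈ trivMod K := ht ▸ Subgroup.mul_mem _ hφK (Subgroup.inv_mem _ hn3)
  have ht3 : t ∈ trivMod (Γ₀ ⊓ Γ₁) := ht ▸ Subgroup.mul_mem _ hφ01 (Subgroup.inv_mem _ hn1'.2)
  have ht4 : ∀ θ : G →* ℤˣ, K ≤ θ.ker → Triv K θ t := by
    intro θ hθ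
    rw [ht]
    exact hn4 θ (hΘ.mem_toFinset.2 hθ)
  have ht5 : ∀ f, HomOn K f → ∀ y ∈ K, f (t y) = f y := fun f hf y hy =>
    hom_fix K hK h2 ht2 (fun θ hθ c hcr => ht4 θ hθ c hcr) hf hy
  have ht6 := h₁ t (trivMod_mono inf_le_right ht3) ht5
  have ht7 : t ∈ N := h₀ t ht1 ht2 ht6 (trivMod_mono inf_le_left ht3)
  have h3 : φ = t * n := by rw [ht, inv_mul_cancel_right]
  rw [h3]
  exact N.mul_mem ht7 hn1'.1

end Pool.Agent.H.MP_59b15d_al.R
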