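import Mathlib

/-! The lower central series of a subgroup; its layers are finitely generated. -/

set_option autoImplicit false

open scoped commutatorElement

namespace Pool.Agent.H.MP_59b15d_al.R

variable {G : Type*} [Group G]

/-- The lower central series of the subgroup `K`. -/
def lc (K : Subgroup G) : ℕ → Subgroup G
  | 0 => K
  | n + 1 => ⁅lc K n, K⁆

@[simp] theorem lc_zero (K : Subgroup G) : lc K 0 = K := rfl

theorem lc_succ (K : Subgroup G) (n : ℕ) : lc K (n + 1) = ⁅lc K n, K⁆ := rfl

theorem lc_normal (K : Subgroup G) [K.Normal] (n : ℕ) : (lc K n).Normal := by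
  induction n with
  | zero => exact ‹K.Normal›
  | succ n ih =>
    rw [lc_succ]
    exact Subgroup.commutator_normal _ _

theorem lc_char (K : Subgroup G) [K.Characteristic] (n : ℕ) : (lc K n).Characteristic := by
  induction n with
  | zero => exact ‹K.Characteristic›
  | succ n ih =>
    rw [lc_succ]
    exact Subgroup.commutator_characteristic _ _

theorem lc_succ_le (K : Subgroup G) [K.Normal] (n : ℕ) : lc K (n + 1) ≤ lc K n := by
  have := lc_normal K n
  rw [lc_succ]
  exact Subgroup.commutator_le_left _ _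

theorem lc_anti (K : Subgroup G) [K.Normal] {m n : ℕ} (h : m ≤ n) : lc K n ≤ lc K m := by
  induction h with
  | refl => exact le_rfl
  | step _ ih => exact (lc_succ_le K _).trans ih

theorem lc_le (K : Subgroup G) [K.Normal] (n : ℕ) : lc K n ≤ K := lc_anti K (Nat.zero_le n)

theorem comm_mem (K : Subgroup G) {n : ℕ} {x y : G} (hx : x ∈ lc K n) (hy : y ∈ K) :
    ⁅x, y⁆ ∈ lc K (n + 1) := Subgroup.commutator_mem_commutator hx hy

theorem comm_mem' (K : Subgroup G) [K.Normal] {n : ℕ} {x y : G} (hx : x ∈ K) (hy : y ∈ lc K n) :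
    ⁅x, y⁆ ∈ lc K (n + 1) := by
  have h := (lc K (n + 1)).inv_mem (comm_mem K hy hx)
  rwa [commutatorElement_inv] at h

/-- A subgroup between two terms of the lower central series is normalised by `K`. -/
theorem conj_mem_of_between {K P : Subgroup G} {n : ℕ} (h1 : lc K (n + 1) ≤ P)
    (h2 : P ≤ lc K n) {k p : G} (hk : k ∈ K) (hp : p ∈ P) : k * p * k⁻¹ ∈ P := by
  have h3 : ⁅p, k⁆ ∈ P := h1 (comm_mem K (h2 hp) hk)
  have h4 : k * p * k⁻¹ = ⁅p, k⁆⁻¹ * p := by
    rw [commutatorElement_def]
    group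
  rw [h4]
  exact P.mul_mem (P.inv_mem h3) hp

/-- The layers of the lower central series are finitely generated. -/
theorem lc_fg (K : Subgroup G) [K.Normal] {S : Set G} (hS : S.Finite)
    (hK : Subgroup.closure S = K) (n : ℕ) : ∃ T : Set G, T.Finite ∧ T ⊆ lc K n ∧
      lc K n ≤ Subgroup.closure T ⊔ lc K (n + 1) := by
  induction n with
  | zero =>
    refine ⟨S, hS, ?_, ?_⟩
    · rw [lc_zero, ← hK]
      exact Subgroup.subset_closure
    · rw [hK]
      exact le_sup_left
  | succ n ih =>
    obtain ⟨T, hT, hTn, hle⟩ := ih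
    obtain ⟨T', hT'⟩ : ∃ T' : Set G, T' = Set.image2 (fun t s => ⁅t, s⁆) T S := ⟨_, rfl⟩
    have hSK : S ⊆ K := by
      rw [← hK]
      exact Subgroup.subset_closure
    have hT'n : T' ⊆ lc K (n + 1) := by
      rw [hT']
      rintro _ ⟨t, ht, s, hs, rfl⟩
      exact comm_mem K (hTn ht) (hSK hs)
    refine ⟨T', ?_, hT'n, ?_⟩
    · rw [hT']
      exact hT.image2 _ hS
    obtain ⟨P, hP⟩ : ∃ P, P = Subgroup.closure T' ⊔ lc K (n + 1 + 1) := ⟨_, rfl⟩
    have hP1 : lc K (n + 1 + 1) ≤ P := by
      rw [hP]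
      exact le_sup_right
    have hP2 : P ≤ lc K (n + 1) := by
      rw [hP, sup_le_iff, Subgroup.closure_le]
      exact ⟨hT'n, lc_succ_le K _⟩
    have hc : ∀ {k p : G}, k ∈ K → p ∈ P → k * p * k⁻¹ ∈ P := fun hk hp =>
      conj_mem_of_between hP1 hP2 hk hp
    rw [← hP]
    -- commutators of the generators `t` with elements of `K`
    have h1 : ∀ t ∈ T, ∀ k ∈ K, ⁅t, k⁆ ∈ P := by
      intro t ht k hk
      rw [← hK] at hk
      induction hk using Subgroup.closure_induction with
      | mem s hs =>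
        rw [hP]
        refine Subgroup.mem_sup_left (Subgroup.subset_closure ?_)
        rw [hT']
        exact ⟨t, ht, s, hs, rfl⟩
      | one =>
        rw [commutatorElement_one_right]
        exact P.one_mem
      | mul x y hx hy ihx ihy =>
        have h2 : ⁅t, x * y⁆ = ⁅t, x⁆ * (x * ⁅t, y⁆ * x⁻¹) := by
          simp only [commutatorElement_def]
          group
        rw [h2]
        exact P.mul_mem ihx (hc (hK ▸ hx) ihy)
      | inv x hx ihx =>
        have h2 : ⁅t, x⁻¹⁆ = x⁻¹ * ⁅t, x⁆⁻¹ * x⁻¹⁻¹ := by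
          simp only [commutatorElement_def]
          group
        rw [h2]
        exact hc (K.inv_mem (hK ▸ hx)) (P.inv_mem ihx)
    have hn := lc_normal K n
    -- all elements of `lc K n`
    have h3 : ∀ x ∈ lc K n, ∀ k ∈ K, ⁅x, k⁆ ∈ P := by
      intro x hx k hk
      have h4 : x ∈ Subgroup.closure T ⊔ lc K (n + 1) := hle hx
      have hnn := lc_normal K (n + 1)
      obtain ⟨y, hy, z, hz, rfl⟩ := Subgroup.mem_sup_of_normal_right.1 h4
      have h5 : ⁅z, k⁆ ∈ P := hP1 (comm_mem K hz hk)
      have hyK : ∀ w ∈ Subgroup.closure T, w ∈ K := fun w hw =>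
        lc_le K n ((Subgroup.closure_le (lc K n)).2 hTn hw)
      have h6 : ∀ w ∈ Subgroup.closure T, ⁅w, k⁆ ∈ P := by
        intro w hw
        induction hw using Subgroup.closure_induction with
        | mem t ht => exact h1 t ht k hk
        | one =>
          rw [commutatorElement_one_left]
          exact P.one_mem
        | mul u v hu hv ihu ihv =>
          have h7 : ⁅u * v, k⁆ = (u * ⁅v, k⁆ * u⁻¹) * ⁅u, k⁆ := by
            simp only [commutatorElement_def]
            group
          rw [h7]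
          exact P.mul_mem (hc (hyK u hu) ihv) ihu
        | inv u hu ihu =>
          have h7 : ⁅u⁻¹, k⁆ = u⁻¹ * ⁅u, k⁆⁻¹ * u⁻¹⁻¹ := by
            simp only [commutatorElement_def]
            group
          rw [h7]
          exact hc (K.inv_mem (hyK u hu)) (P.inv_mem ihu)
      have h7 : ⁅y * z, k⁆ = (y * ⁅z, k⁆ * y⁻¹) * ⁅y, k⁆ := by
        simp only [commutatorElement_def]
        group
      rw [h7]
      exact P.mul_mem (hc (hyK y hy) h5) (h6 y hy)
    rw [lc_succ, Subgroup.commutator_le]
    exact fun x hx k hk => h3 x hx k hk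

end Pool.Agent.H.MP_59b15d_al.R
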