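import Pool.Agent.H.MP_59b15d_al.R.Nil
import Pool.Agent.H.MP_59b15d_al.h76m.Hb

/-! A characteristic subgroup of finite index which meets a term of the lower central series of `K`
in `E`-th powers modulo the next term. -/

set_option autoImplicit false

open scoped commutatorElement

namespace Pool.Agent.H.MP_59b15d_al.R

universe u

/-- The last term of the lower central series of a finitely generated nilpotent group is finite, if it
has finite exponent. -/
theorem last_finite {Q : Type*} [Group Q] [Group.FG Q] {j E : ℕ} (hE : 0 < E)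
    (h : lc (⊤ : Subgroup Q) (j + 1) = ⊥) (h' : ∀ y ∈ lc (⊤ : Subgroup Q) j, y ^ E = 1) :
    Finite (lc (⊤ : Subgroup Q) j) := by
  have hfg : (lc (⊤ : Subgroup Q) j).FG := by
    obtain ⟨S, hS, hSf⟩ := Group.fg_iff.1 (inferInstance : Group.FG Q)
    obtain ⟨T, hT, h1, h2⟩ := lc_fg (⊤ : Subgroup Q) hSf hS j
    rw [h, sup_bot_eq] at h2
    exact (Subgroup.fg_iff _).2 ⟨T, le_antisymm ((Subgroup.closure_le _).2 h1) h2, hT⟩
  let _ : CommGroup (lc (⊤ : Subgroup Q) j) :=
    { (inferInstance : Group (lc (⊤ : Subgroup Q) j)) with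
      mul_comm := fun a b => by
        have h1 : ⁅(a : Q), (b : Q)⁆ ∈ lc (⊤ : Subgroup Q) (j + 1) :=
          comm_mem _ a.2 (Subgroup.mem_top _)
        rw [h, Subgroup.mem_bot, commutatorElement_eq_one_iff_mul_comm] at h1
        exact Subtype.ext h1 }
  have : Group.FG (lc (⊤ : Subgroup Q) j) := (Group.fg_iff_subgroup_fg _).2 hfg
  exact finite_of_exp hE fun a => Subtype.ext (h' a a.2)

/-- In a finitely generated nilpotent group a finite subset which does not contain `1` is avoided by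
a subgroup of finite index. -/
theorem avoid {Q : Type u} [Group Q] [Group.FG Q] {c : ℕ} (h : lc (⊤ : Subgroup Q) c = ⊥)
    (A : Set Q) (hA : A.Finite) : ∃ M : Subgroup Q, M.FiniteIndex ∧ ∀ x ∈ A, x ∈ M → x = 1 := by
  have h1 : ∀ a : {a : Q // a ∈ A ∧ a ≠ 1}, ∃ M : Subgroup Q, M.FiniteIndex ∧ a.1 ∉ M :=
    fun a => nil_rf c Q h a.1 a.2.2
  choose M hM hM' using h1
  have : Finite {a : Q // a ∈ A ∧ a ≠ 1} := (hA.subset fun a ha => ha.1).to_subtype
  refine ⟨⨅ a, M a, Subgroup.finiteIndex_iInf hM, fun x hx hxM => ?_⟩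
  by_contra hne
  rw [Subgroup.mem_iInf] at hxM
  exact hM' ⟨x, hx, hne⟩ (hxM ⟨x, hx, hne⟩)

theorem sep {G : Type u} [Group G] [Group.FG G] (K : Subgroup G) [K.Characteristic]
    (hK : K.FiniteIndex) (j : ℕ) {E : ℕ} (hE : 0 < E) : ∃ Δ : Subgroup G, Δ.Characteristic ∧
      Δ.FiniteIndex ∧ ∀ x ∈ Δ, x ∈ lc K j → x ∈ pw K E j := by
  have hB := pw_normal K E j
  have hBK : ((pw K E j).subgroupOf K).Normal := inferInstance
  obtain ⟨f, hf⟩ : ∃ f : K →* K ⧸ (pw K E j).subgroupOf K,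
      f = QuotientGroup.mk' ((pw K E j).subgroupOf K) := ⟨_, rfl⟩
  have hfs : Function.Surjective f := by rw [hf]; exact QuotientGroup.mk'_surjective _
  have hf1 : ∀ y : K, f y = 1 ↔ (y : G) ∈ pw K E j := by
    intro y
    rw [hf, QuotientGroup.mk'_apply, QuotientGroup.eq_one_iff, Subgroup.mem_subgroupOf]
  have hsub : ∀ i, (lc (⊤ : Subgroup K) i).map K.subtype = lc K i := by
    intro i
    rw [lc_map, ← MonoidHom.range_eq_map, Subgroup.range_subtype]
  have htop : ∀ i, (lc (⊤ : Subgroup K) i).map f = lc ⊤ i := by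
    intro i
    rw [lc_map, ← MonoidHom.range_eq_map, MonoidHom.range_eq_top.2 hfs]
  have hKfg : Group.FG K := inferInstance
  have hQfg : Group.FG (K ⧸ (pw K E j).subgroupOf K) := Group.fg_of_surjective hfs
  have hmem : ∀ i, ∀ y ∈ lc (⊤ : Subgroup K) i, (y : G) ∈ lc K i := by
    intro i y hy
    rw [← hsub i]
    exact Subgroup.mem_map_of_mem _ hy
  have h1 : lc (⊤ : Subgroup (K ⧸ (pw K E j).subgroupOf K)) (j + 1) = ⊥ := by
    rw [← htop, Subgroup.eq_bot_iff_forall]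
    rintro _ ⟨y, hy, rfl⟩
    exact (hf1 y).2 (lc_le_pw (hmem _ y hy))
  have h2 : ∀ y ∈ lc (⊤ : Subgroup (K ⧸ (pw K E j).subgroupOf K)) j, y ^ E = 1 := by
    intro y hy
    rw [← htop] at hy
    obtain ⟨v, hv, rfl⟩ := hy
    rw [← map_pow, hf1]
    exact pow_mem_pw (hmem _ v hv)
  have hfin := last_finite hE h1 h2
  obtain ⟨M, hM, hM'⟩ := avoid h1 (lc (⊤ : Subgroup (K ⧸ (pw K E j).subgroupOf K)) j : Set _)
    (Set.toFinite _)
  have h3 : ((M.comap f).map K.subtype).FiniteIndex := by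
    refine ⟨?_⟩
    rw [Subgroup.index_map_subtype, Subgroup.index_comap_of_surjective _ hfs]
    exact mul_ne_zero hM.index_ne_zero hK.index_ne_zero
  obtain ⟨Δ, hc, hfi, hle⟩ := Pool.MP_59b15d_al.H76.exists_char_le _ h3
  refine ⟨Δ, hc, hfi, fun x hx hxj => ?_⟩
  obtain ⟨y, hy, rfl⟩ := hle hx
  have h4 : y ∈ lc (⊤ : Subgroup K) j := by
    rw [← hsub j] at hxj
    obtain ⟨z, hz, hzy⟩ := hxj
    have h5 : z = y := K.subtype_injective hzy
    exact h5 ▸ hz
  have h5 : f y ∈ lc (⊤ : Subgroup (K ⧸ (pw K E j).subgroupOf K)) j := by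
    rw [← htop]
    exact Subgroup.mem_map_of_mem _ h4
  exact (hf1 y).1 (hM' _ h5 hy)

end Pool.Agent.H.MP_59b15d_al.R
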