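import Pool.Agent.H.MP_59b15d_al.R.Coc
import Pool.Agent.H.MP_59b15d_al.R.Sep

/-! The nilpotent part: the congruence subgroup property for the subgroups which contain the
automorphisms trivial modulo a term of the lower central series of `K` follows from the one for the
subgroups which contain the automorphisms trivial modulo `[K, K]`. -/

set_option autoImplicit false

open scoped commutatorElement

namespace Pool.Agent.H.MP_59b15d_al.R

open Pool.MP_59b15d_al.H76 (trivMod mem_trivMod trivMod_normal trivMod_finiteIndex trivMod_mono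
  inf_char InnMod innMod_iff innMod_mono)

universe u

variable {G : Type u} [Group G]

/-- A power into a subgroup of finite index. -/
theorem exists_pow {Γ : Type*} [Group Γ] {P M : Subgroup Γ} (h : P.relIndex M ≠ 0) :
    ∃ e : ℕ, 0 < e ∧ ∀ w ∈ M, w ^ e ∈ P := by
  have : (P.subgroupOf M).FiniteIndex := ⟨h⟩
  refine ⟨(P.subgroupOf M).normalCore.index, Nat.pos_of_ne_zero
    Subgroup.FiniteIndex.index_ne_zero, fun w hw => ?_⟩
  have h1 := Subgroup.pow_index_mem (P.subgroupOf M).normalCore (⟨w, hw⟩ : M)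
  have h2 := Subgroup.normalCore_le _ h1
  rw [Subgroup.mem_subgroupOf] at h2
  exact h2

section cocycle

variable (K : Subgroup G) [K.Normal] (j : ℕ) (M : Subgroup (MulAut G)) (S : Set G)

/-- The cocycle of an automorphism which is trivial modulo `lc K (j + 1)`, on generators. -/
noncomputable def coc : (M ⊓ trivMod (lc K (j + 1)) : Subgroup (MulAut G)) →*
    Multiplicative (S → Additive (Lay K (j + 1))) where
  toFun φ := Multiplicative.ofAdd fun s => Additive.ofMul (cl ⟨φ.1 s * (s : G)⁻¹, φ.2.2 s⟩)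
  map_one' := by
    apply Multiplicative.toAdd.injective
    funext s
    apply Additive.toMul.injective
    show cl ⟨(1 : MulAut G) s * (s : G)⁻¹, _⟩ = (1 : Lay K (j + 1))
    rw [cl_eq_one]
    show (1 : MulAut G) s * (s : G)⁻¹ ∈ _
    rw [MulAut.one_apply, mul_inv_cancel]
    exact Subgroup.one_mem _
  map_mul' φ ψ := by
    apply Multiplicative.toAdd.injective
    funext s
    apply Additive.toMul.injective
    show cl ⟨(φ * ψ).1 s * (s : G)⁻¹, _⟩ =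
      cl ⟨φ.1 s * (s : G)⁻¹, φ.2.2 s⟩ * cl ⟨ψ.1 s * (s : G)⁻¹, ψ.2.2 s⟩
    rw [mul_comm, ← cl_mul]
    apply cl_eq
    have h1 := layer_triv φ.2.2 (ψ.2.2 s)
    have h2 : (φ * ψ).1 s * (s : G)⁻¹ * ((ψ.1 s * (s : G)⁻¹) * (φ.1 s * (s : G)⁻¹))⁻¹ =
        φ.1 (ψ.1 s * (s : G)⁻¹) * (ψ.1 s * (s : G)⁻¹)⁻¹ := by
      show φ.1 (ψ.1 s) * _ * _ = _
      rw [map_mul, map_inv]
      group
    exact h2 ▸ h1

variable {K j M S}

theorem coc_apply (φ : (M ⊓ trivMod (lc K (j + 1)) : Subgroup (MulAut G))) (s : S) :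
    Multiplicative.toAdd (coc K j M S φ) s =
      Additive.ofMul (cl ⟨φ.1 s * (s : G)⁻¹, φ.2.2 s⟩) := rfl

theorem coc_one (hS : Subgroup.closure S = ⊤)
    {φ : (M ⊓ trivMod (lc K (j + 1)) : Subgroup (MulAut G))} (h : coc K j M S φ = 1) :
    φ.1 ∈ trivMod (lc K (j + 1 + 1)) := by
  refine trivMod_of_gen (lc_normal K _) hS fun s hs => ?_
  have h1 := congrFun (congrArg Multiplicative.toAdd h) ⟨s, hs⟩
  rw [coc_apply] at h1
  have h2 : cl (⟨φ.1 s * s⁻¹, φ.2.2 s⟩ : lc K (j + 1)) = 1 := Additive.ofMul.injective h1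
  exact cl_eq_one.1 h2

end cocycle

/-- One step: if the automorphisms in `M` which are trivial modulo `lc K (j + 2)` and modulo `Δ'` lie
in `N`, then so do those which are trivial modulo `lc K (j + 1)` and modulo a smaller `Δ`. -/
theorem step [Group.FG G] (K : Subgroup G) [K.Characteristic] (hK : K.FiniteIndex) (j : ℕ)
    (M N : Subgroup (MulAut G)) (hN : N.relIndex M ≠ 0) (Δ' : Subgroup G)
    (hc' : Δ'.Characteristic) (hf' : Δ'.FiniteIndex)
    (h' : ∀ φ ∈ M, φ ∈ trivMod (lc K (j + 1 + 1)) → φ ∈ trivMod Δ' → φ ∈ N) :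
    ∃ Δ : Subgroup G, Δ.Characteristic ∧ Δ.FiniteIndex ∧
      ∀ φ ∈ M, φ ∈ trivMod (lc K (j + 1)) → φ ∈ trivMod Δ → φ ∈ N := by
  obtain ⟨S, hS, hSf⟩ := Group.fg_iff.1 (inferInstance : Group.FG G)
  have hfinS : Finite S := hSf
  have hKfg : K.FG := (Group.fg_iff_subgroup_fg K).1 inferInstance
  have hlay : Group.FG (Lay K (j + 1)) := lay_fg hKfg
  have hadd : AddGroup.FG (Additive (Lay K (j + 1))) := inferInstance
  have hmod : Module.Finite ℤ (Additive (Lay K (j + 1))) :=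
    Module.Finite.iff_addGroup_fg.2 hadd
  have hfg : AddGroup.FG (S → Additive (Lay K (j + 1))) :=
    Module.Finite.iff_addGroup_fg.1 inferInstance
  -- the power
  have hP : (N ⊓ trivMod Δ').relIndex M ≠ 0 := by
    have h1 := trivMod_finiteIndex hc' hf'
    have h2 : ((trivMod Δ').subgroupOf M).FiniteIndex := inferInstance
    exact Subgroup.relIndex_inf_ne_zero hN h2.index_ne_zero
  obtain ⟨e, he, hpow⟩ := exists_pow hP
  obtain ⟨E, hE, hAR⟩ := artin_rees (coc K j M S) he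
  obtain ⟨Δ₁, hc₁, hf₁, h₁⟩ := sep K hK (j + 1) hE
  refine ⟨Δ₁ ⊓ Δ', inf_char hc₁ hc', inferInstance, fun φ hφ hφK hφΔ => ?_⟩
  have hφ1 : φ ∈ trivMod Δ₁ := trivMod_mono inf_le_left hφΔ
  have hφ2 : φ ∈ trivMod Δ' := trivMod_mono inf_le_right hφΔ
  have h2 : ∀ s : S, ∃ v : Lay K (j + 1), cl ⟨φ s * (s : G)⁻¹, hφK s⟩ = v ^ E :=
    fun s => cl_pw (hφK s) (h₁ _ (hφ1 s) (hφK s))
  choose v hv using h2
  obtain ⟨u, hu⟩ := hAR ⟨φ, hφ, hφK⟩ (fun s => Additive.ofMul (v s)) (by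
    apply Multiplicative.toAdd.injective
    funext s
    rw [coc_apply]
    show Additive.ofMul (cl ⟨φ s * (s : G)⁻¹, hφK s⟩) = E • Additive.ofMul (v s)
    rw [hv s]
    rfl)
  have h3 : coc K j M S (⟨φ, hφ, hφK⟩ * (u ^ e)⁻¹) = 1 := by
    rw [map_mul, map_inv, hu, mul_inv_cancel]
  have h4 := coc_one hS h3
  have h5 : u.1 ^ e ∈ N ⊓ trivMod Δ' := hpow u.1 u.2.1
  have h6 : φ * (u.1 ^ e)⁻¹ ∈ N := by
    refine h' _ (M.mul_mem hφ (M.inv_mem (M.pow_mem u.2.1 e))) h4 ?_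
    exact (trivMod Δ').mul_mem hφ2 ((trivMod Δ').inv_mem h5.2)
  have h7 := N.mul_mem h6 h5.1
  rwa [inv_mul_cancel_right] at h7

/-- The automorphisms in `M` trivial modulo `[K, K]` and a suitable `Δ` lie in `N`. -/
theorem nilp_part [Group.FG G] (K : Subgroup G) [K.Characteristic] (hK : K.FiniteIndex) (k : ℕ)
    (M N : Subgroup (MulAut G)) (hN : N.relIndex M ≠ 0)
    (h : ∀ φ ∈ M, φ ∈ trivMod (lc K (k + 1)) → φ ∈ N) :
    ∃ Δ : Subgroup G, Δ.Characteristic ∧ Δ.FiniteIndex ∧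
      ∀ φ ∈ M, φ ∈ trivMod (lc K 1) → φ ∈ trivMod Δ → φ ∈ N := by
  have key : ∀ i, i ≤ k → ∃ Δ : Subgroup G, Δ.Characteristic ∧ Δ.FiniteIndex ∧
      ∀ φ ∈ M, φ ∈ trivMod (lc K (k - i + 1)) → φ ∈ trivMod Δ → φ ∈ N := by
    intro i
    induction i with
    | zero =>
      intro _
      exact ⟨⊤, inferInstance, inferInstance, fun φ hφ h1 _ => h φ hφ h1⟩
    | succ i ih =>
      intro hi
      obtain ⟨Δ', hc', hf', h'⟩ := ih (by omega)
      obtain ⟨j, hj⟩ : ∃ j, j = k - (i + 1) := ⟨_, rfl⟩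
      have hj' : k - i = j + 1 := by omega
      rw [hj'] at h'
      rw [← hj]
      exact step K hK j M N hN Δ' hc' hf' h'
  have h1 := key k le_rfl
  rwa [Nat.sub_self, Nat.zero_add] at h1

/-- The congruence subgroup property of `M` for the subgroups which contain the automorphisms in `M`
trivial modulo `D`. -/
def CongAbove (M : Subgroup (MulAut G)) (D : Subgroup G) : Prop :=
  ∀ N : Subgroup (MulAut G), N.relIndex M ≠ 0 → (∀ φ ∈ M, φ ∈ trivMod D → φ ∈ N) →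
    ∃ Γ : Subgroup G, Γ.Characteristic ∧ Γ.FiniteIndex ∧ ∀ φ ∈ M, φ ∈ trivMod Γ → φ ∈ N

/-- It suffices to treat the subgroups which contain the automorphisms trivial modulo `[K, K]`. -/
theorem devissage [Group.FG G] (K : Subgroup G) [K.Characteristic] (hK : K.FiniteIndex)
    (M : Subgroup (MulAut G)) (hbase : CongAbove M ⁅K, K⁆) (k : ℕ) : CongAbove M (lc K k) := by
  intro N hN h
  obtain ⟨Δ, hc, hf, h1⟩ := nilp_part K hK k M N hN (fun φ hφ h2 =>
    h φ hφ (trivMod_mono (lc_succ_le K k) h2))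
  have hP : (N ⊓ trivMod Δ ⊓ M).relIndex M ≠ 0 := by
    have h1 := trivMod_finiteIndex hc hf
    have h2 : ((trivMod Δ).subgroupOf M).FiniteIndex := inferInstance
    rw [Subgroup.inf_relIndex_right]
    exact Subgroup.relIndex_inf_ne_zero hN h2.index_ne_zero
  have hT : (trivMod ⁅K, K⁆).Normal := trivMod_normal (Subgroup.commutator_characteristic K K)
  obtain ⟨Γ, hcΓ, hfΓ, h2⟩ := hbase ((N ⊓ trivMod Δ ⊓ M) ⊔ trivMod ⁅K, K⁆) (fun h0 =>
    hP (Nat.eq_zero_of_zero_dvd (h0 ▸ Subgroup.relIndex_dvd_of_le_left M le_sup_left)))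
    (fun φ _ hφ => Subgroup.mem_sup_right hφ)
  refine ⟨Γ ⊓ Δ, inf_char hcΓ hc, inferInstance, fun φ hφ h3 => ?_⟩
  obtain ⟨n, hn, t, ht, hnt⟩ := Subgroup.mem_sup_of_normal_right.1
    (h2 φ hφ (trivMod_mono inf_le_left h3))
  have h4 : t = n⁻¹ * φ := by rw [← hnt, inv_mul_cancel_left]
  have h5 : t ∈ M := h4 ▸ M.mul_mem (M.inv_mem hn.2) hφ
  have h6 : t ∈ trivMod Δ := h4 ▸ (trivMod Δ).mul_mem ((trivMod Δ).inv_mem hn.1.2)
    (trivMod_mono inf_le_right h3)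
  rw [← hnt]
  exact N.mul_mem hn.1.1 (h1 t h5 ht h6)

/-- It suffices to treat the subgroups of `M` which are normalised by `M`. -/
theorem congAbove_of_normal {M : Subgroup (MulAut G)} {D : Subgroup G} (hD : D.Characteristic)
    (h : ∀ N : Subgroup (MulAut G), N ≤ M → (∀ ψ ∈ M, ∀ x ∈ N, ψ * x * ψ⁻¹ ∈ N) →
      N.relIndex M ≠ 0 → (∀ φ ∈ M, φ ∈ trivMod D → φ ∈ N) →
      ∃ Γ : Subgroup G, Γ.Characteristic ∧ Γ.FiniteIndex ∧ ∀ φ ∈ M, φ ∈ trivMod Γ → φ ∈ N) :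
    CongAbove M D := by
  intro N hN hle
  have hfin : (N.subgroupOf M).FiniteIndex := ⟨hN⟩
  obtain ⟨P, hP⟩ : ∃ P, P = (N.subgroupOf M).normalCore := ⟨_, rfl⟩
  have hPn : P.Normal := by
    rw [hP]
    infer_instance
  have hPf : P.FiniteIndex := by
    rw [hP]
    infer_instance
  have hT := trivMod_normal hD
  have hPN : P.map M.subtype ≤ N := by
    rintro _ ⟨x, hx, rfl⟩
    rw [hP] at hx
    exact Subgroup.mem_subgroupOf.1 (Subgroup.normalCore_le _ hx)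
  have h3 : ∀ ψ ∈ M, ∀ x ∈ P.map M.subtype, ψ * x * ψ⁻¹ ∈ P.map M.subtype := by
    rintro ψ hψ _ ⟨x, hx, rfl⟩
    exact ⟨⟨ψ, hψ⟩ * x * ⟨ψ, hψ⟩⁻¹, hPn.conj_mem x hx ⟨ψ, hψ⟩, rfl⟩
  have h4 : (P.map M.subtype).relIndex M ≠ 0 := by
    have h2 : (P.map M.subtype).subgroupOf M = P :=
      Subgroup.comap_map_eq_self_of_injective M.subtype_injective P
    unfold Subgroup.relIndex
    rw [h2]
    exact hPf.index_ne_zero
  have h5 : ∀ φ ∈ M, φ ∈ trivMod D → φ ∈ P.map M.subtype := by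
    intro φ hφ h2
    refine ⟨⟨φ, hφ⟩, ?_, rfl⟩
    rw [hP]
    intro ψ
    rw [Subgroup.mem_subgroupOf]
    refine hle _ (M.mul_mem (M.mul_mem ψ.2 hφ) (M.inv_mem ψ.2)) ?_
    exact hT.conj_mem φ h2 ψ.1
  obtain ⟨Γ, hc, hf, h1⟩ := h (P.map M.subtype) (Subgroup.map_subtype_le P) h3 h4 h5
  exact ⟨Γ, hc, hf, fun φ hφ h2 => hPN (h1 φ hφ h2)⟩

/-- The form with inner automorphisms. -/
theorem CongAbove.inn {M : Subgroup (MulAut G)} {D : Subgroup G} (h : CongAbove M D)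
    (hM : ∀ x : G, MulAut.conj x ∈ M) (H : Subgroup (MulAut G)) (hI : ∀ x : G, MulAut.conj x ∈ H)
    (hH : H.relIndex M ≠ 0) (hD : ∀ φ ∈ M, φ ∈ trivMod D → φ ∈ H) :
    ∃ Γ : Subgroup G, Γ.Characteristic ∧ Γ.FiniteIndex ∧ ∀ φ ∈ M, InnMod Γ φ → φ ∈ H := by
  obtain ⟨Γ, hc, hf, h1⟩ := h H hH hD
  have hn : Γ.Normal := inferInstance
  refine ⟨Γ, hc, hf, fun φ hφ hi => ?_⟩
  obtain ⟨x, hx⟩ := (innMod_iff hn).1 hi
  have h2 := h1 _ (M.mul_mem (M.inv_mem (hM x)) hφ) hx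
  have h3 := H.mul_mem (hI x) h2
  rwa [mul_inv_cancel_left] at h3

end Pool.Agent.H.MP_59b15d_al.R
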