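import Pool.Agent.H.MP_59b15d_al.R.Lc
import Pool.Agent.H.MP_59b15d_al.R.Ab

/-! Finitely generated nilpotent groups are residually finite. -/

set_option autoImplicit false

open scoped commutatorElement

namespace Pool.Agent.H.MP_59b15d_al.R

universe u

section powers

variable {G : Type*} [Group G]

/-- The subgroup generated by the `n`-th powers of the elements of `lc K i` and `lc K (i + 1)`. -/
def pw (K : Subgroup G) (n i : ℕ) : Subgroup G :=
  Subgroup.closure ((fun y => y ^ n) '' (lc K i : Set G)) ⊔ lc K (i + 1)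

theorem pow_mem_pw {K : Subgroup G} {n i : ℕ} {y : G} (hy : y ∈ lc K i) : y ^ n ∈ pw K n i :=
  Subgroup.mem_sup_left (Subgroup.subset_closure ⟨y, hy, rfl⟩)

theorem lc_le_pw {K : Subgroup G} {n i : ℕ} : lc K (i + 1) ≤ pw K n i := le_sup_right

theorem pw_le (K : Subgroup G) [K.Normal] (n i : ℕ) : pw K n i ≤ lc K i := by
  unfold pw
  rw [sup_le_iff, Subgroup.closure_le]
  refine ⟨?_, lc_succ_le K i⟩
  rintro _ ⟨y, hy, rfl⟩
  exact (lc K i).pow_mem hy n

theorem powers_char (A : Subgroup G) [hA : A.Characteristic] (n : ℕ) :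
    (Subgroup.closure ((fun y => y ^ n) '' (A : Set G))).Characteristic := by
  rw [Subgroup.characteristic_iff_map_le]
  intro φ
  rw [MonoidHom.map_closure, Subgroup.closure_le]
  rintro _ ⟨_, ⟨y, hy, rfl⟩, rfl⟩
  refine Subgroup.subset_closure ⟨φ y, ?_, (map_pow φ y n).symm⟩
  exact Subgroup.characteristic_iff_map_le.1 hA φ (Subgroup.mem_map_of_mem _ hy)

theorem powers_normal (A : Subgroup G) [hA : A.Normal] (n : ℕ) :
    (Subgroup.closure ((fun y => y ^ n) '' (A : Set G))).Normal := by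
  refine ⟨fun x hx g => ?_⟩
  have h1 : (Subgroup.closure ((fun y => y ^ n) '' (A : Set G))).map
      (MulAut.conj g).toMonoidHom ≤ Subgroup.closure ((fun y => y ^ n) '' (A : Set G)) := by
    rw [MonoidHom.map_closure, Subgroup.closure_le]
    rintro _ ⟨_, ⟨y, hy, rfl⟩, rfl⟩
    refine Subgroup.subset_closure ⟨g * y * g⁻¹, hA.conj_mem y hy g, ?_⟩
    exact conj_pow
  exact h1 (Subgroup.mem_map_of_mem (MulAut.conj g).toMonoidHom hx)

theorem pw_char (K : Subgroup G) [K.Characteristic] (n i : ℕ) : (pw K n i).Characteristic := by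
  have h1 := lc_char K i
  have h2 := lc_char K (i + 1)
  have h3 := powers_char (lc K i) n
  rw [Subgroup.characteristic_iff_map_le] at h2 h3 ⊢
  intro φ
  unfold pw
  rw [Subgroup.map_sup]
  exact sup_le_sup (h3 φ) (h2 φ)

theorem pw_normal (K : Subgroup G) [K.Normal] (n i : ℕ) : (pw K n i).Normal := by
  have h1 := lc_normal K i
  have h2 := lc_normal K (i + 1)
  have h3 := powers_normal (lc K i) n
  exact Subgroup.sup_normal _ _

theorem comm_pow {K : Subgroup G} [K.Normal] {i : ℕ} {y q : G} (hy : y ∈ lc K i) (hq : q ∈ K)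
    (k : ℕ) : ⁅y ^ k, q⁆ * (⁅y, q⁆ ^ k)⁻¹ ∈ lc K (i + 2) := by
  have hN := lc_normal K (i + 2)
  have hyK := lc_le K i hy
  induction k with
  | zero =>
    rw [pow_zero, pow_zero, commutatorElement_one_left, inv_one, one_mul]
    exact Subgroup.one_mem _
  | succ k ih =>
    have hc : ⁅y, q⁆ ∈ lc K (i + 1) := comm_mem K hy hq
    have h1 : ⁅⁅y, q⁆, y ^ k⁆ ∈ lc K (i + 2) := comm_mem K hc (K.pow_mem hyK k)
    have h2 : ⁅y ^ (k + 1), q⁆ * (⁅y, q⁆ ^ (k + 1))⁻¹ =
        (⁅⁅y, q⁆, y ^ k⁆⁻¹) * (⁅y, q⁆ * (⁅y ^ k, q⁆ * (⁅y, q⁆ ^ k)⁻¹) * ⁅y, q⁆⁻¹) := by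
      rw [pow_succ ⁅y, q⁆ k, mul_inv_rev]
      have h3 : ⁅y ^ (k + 1), q⁆ = ⁅⁅y, q⁆, y ^ k⁆⁻¹ * ⁅y, q⁆ * ⁅y ^ k, q⁆ := by
        rw [pow_succ]
        simp only [commutatorElement_def]
        group
      rw [h3]
      have h4 : (⁅y, q⁆ ^ k)⁻¹ * ⁅y, q⁆⁻¹ = ⁅y, q⁆⁻¹ * (⁅y, q⁆ ^ k)⁻¹ := by
        rw [← mul_inv_rev, ← mul_inv_rev, ← pow_succ, ← pow_succ']
      simp only [mul_assoc]
      rw [h4]
    rw [h2]
    exact Subgroup.mul_mem _ (Subgroup.inv_mem _ h1) (hN.conj_mem _ ih _)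

theorem comm_pw (K : Subgroup G) [K.Normal] (n i : ℕ) : ⁅pw K n i, K⁆ ≤ pw K n (i + 1) := by
  have hN := pw_normal K n (i + 1)
  rw [Subgroup.commutator_le]
  intro x hx q hq
  have h1 := lc_normal K (i + 1)
  have hmem : ∀ w ∈ Subgroup.closure ((fun y => y ^ n) '' (lc K i : Set G)),
      ⁅w, q⁆ ∈ pw K n (i + 1) := by
    intro w hw
    induction hw using Subgroup.closure_induction with
    | mem w hw =>
      obtain ⟨y, hy, rfl⟩ := hw
      have h2 := comm_pow hy hq n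
      have h3 : ⁅y, q⁆ ^ n ∈ pw K n (i + 1) := pow_mem_pw (comm_mem K hy hq)
      have h4 := (pw K n (i + 1)).mul_mem (lc_le_pw h2) h3
      rwa [inv_mul_cancel_right] at h4
    | one =>
      rw [commutatorElement_one_left]
      exact Subgroup.one_mem _
    | mul u v _ _ ihu ihv =>
      have h7 : ⁅u * v, q⁆ = (u * ⁅v, q⁆ * u⁻¹) * ⁅u, q⁆ := by
        simp only [commutatorElement_def]
        group
      rw [h7]
      exact Subgroup.mul_mem _ (hN.conj_mem _ ihv _) ihu
    | inv u _ ihu =>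
      have h7 : ⁅u⁻¹, q⁆ = u⁻¹ * ⁅u, q⁆⁻¹ * u⁻¹⁻¹ := by
        simp only [commutatorElement_def]
        group
      rw [h7]
      exact hN.conj_mem _ (Subgroup.inv_mem _ ihu) _
  unfold pw at hx
  obtain ⟨w, hw, z, hz, rfl⟩ := Subgroup.mem_sup_of_normal_right.1 hx
  have h7 : ⁅w * z, q⁆ = (w * ⁅z, q⁆ * w⁻¹) * ⁅w, q⁆ := by
    simp only [commutatorElement_def]
    group
  rw [h7]
  exact Subgroup.mul_mem _ (hN.conj_mem _ (lc_le_pw (comm_mem K hz hq)) _) (hmem w hw)

/-- The lower central series of a subgroup of `pw K n 0`. -/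
theorem lc_le_pw_of {K R : Subgroup G} [K.Normal] {n : ℕ} (hR : R ≤ pw K n 0) (i : ℕ) :
    lc R i ≤ pw K n i := by
  induction i with
  | zero => exact hR
  | succ i ih =>
    rw [lc_succ]
    exact (Subgroup.commutator_mono ih (hR.trans (pw_le K n 0))).trans (comm_pw K n i)

theorem lc_map {G' : Type*} [Group G'] (f : G →* G') (K : Subgroup G) (i : ℕ) :
    (lc K i).map f = lc (K.map f) i := by
  induction i with
  | zero => rfl
  | succ i ih => rw [lc_succ, Subgroup.map_commutator, ih, ← lc_succ]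

end powers

section abelian

theorem comm_resid {A : Type*} [CommGroup A] [Group.FG A] {x : A} (hx : x ≠ 1) :
    ∃ n : ℕ, 0 < n ∧ ∀ v : A, x ≠ v ^ n := by
  have : AddGroup.FG (Additive A) := inferInstance
  obtain ⟨n, hn, h⟩ := ab_resid (V := Additive A) (x := Additive.ofMul x) hx
  exact ⟨n, hn, fun v hv => h (Additive.ofMul v) hv⟩

theorem sub_resid {Q : Type*} [Group Q] {A : Subgroup Q} (hc : ∀ x ∈ A, ∀ y ∈ A, x * y = y * x)
    (hfg : A.FG) {x : Q} (hx : x ∈ A) (hx1 : x ≠ 1) : ∃ n : ℕ, 0 < n ∧ ∀ v ∈ A, v ^ n ≠ x := by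
  let _ : CommGroup A :=
    { (inferInstance : Group A) with
      mul_comm := fun a b => Subtype.ext (hc a a.2 b b.2) }
  have : Group.FG A := (Group.fg_iff_subgroup_fg A).2 hfg
  obtain ⟨n, hn, h⟩ := comm_resid (A := A) (x := ⟨x, hx⟩) (fun h => hx1 (congrArg Subtype.val h))
  exact ⟨n, hn, fun v hv hvx => h ⟨v, hv⟩ (Subtype.ext hvx.symm)⟩

/-- A finitely generated abelian group of finite exponent is finite. -/
theorem finite_of_exp {A : Type*} [CommGroup A] [Group.FG A] {n : ℕ} (hn : 0 < n)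
    (h : ∀ a : A, a ^ n = 1) : Finite A := by
  refine CommGroup.finite_of_fg_torsion A fun a => ?_
  exact isOfFinOrder_iff_pow_eq_one.2 ⟨n, hn, h a⟩

end abelian

section nilpotent

/-- The subgroup `pw ⊤ n 0` has finite index. -/
theorem pw_finiteIndex {Q : Type*} [Group Q] [Group.FG Q] {n : ℕ} (hn : 0 < n) :
    (pw (⊤ : Subgroup Q) n 0).FiniteIndex := by
  have hN := pw_normal (⊤ : Subgroup Q) n 0
  let _ : CommGroup (Q ⧸ pw (⊤ : Subgroup Q) n 0) :=
    { (inferInstance : Group (Q ⧸ pw (⊤ : Subgroup Q) n 0)) with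
      mul_comm := by
        intro a b
        induction a using QuotientGroup.induction_on with | _ a => ?_
        induction b using QuotientGroup.induction_on with | _ b => ?_
        rw [← QuotientGroup.mk_mul, ← QuotientGroup.mk_mul, QuotientGroup.eq]
        have h1 : ⁅b⁻¹, a⁻¹⁆ ∈ lc (⊤ : Subgroup Q) 1 :=
          comm_mem _ (Subgroup.mem_top _) (Subgroup.mem_top _)
        have h2 : (a * b)⁻¹ * (b * a) = ⁅b⁻¹, a⁻¹⁆ := by
          rw [commutatorElement_def]
          group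
        rw [h2]
        exact lc_le_pw h1 }
  have hf : Finite (Q ⧸ pw (⊤ : Subgroup Q) n 0) := by
    refine finite_of_exp hn fun a => ?_
    induction a using QuotientGroup.induction_on with | _ a => ?_
    rw [← QuotientGroup.mk_pow, QuotientGroup.eq_one_iff]
    exact pow_mem_pw (Subgroup.mem_top _)
  exact Subgroup.finiteIndex_of_finite_quotient

/-- Finitely generated nilpotent groups are residually finite. -/
theorem nil_rf (c : ℕ) : ∀ (Q : Type u) [Group Q] [Group.FG Q], lc (⊤ : Subgroup Q) c = ⊥ →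
    ∀ x : Q, x ≠ 1 → ∃ M : Subgroup Q, M.FiniteIndex ∧ x ∉ M := by
  induction c with
  | zero =>
    intro Q _ _ h x hx
    have h1 : x ∈ lc (⊤ : Subgroup Q) 0 := Subgroup.mem_top x
    rw [h] at h1
    exact absurd (Subgroup.mem_bot.1 h1) hx
  | succ c ih =>
    intro Q _ _ h x hx
    -- the centre
    have hcen : ∀ z ∈ lc (⊤ : Subgroup Q) c, ∀ q : Q, z * q = q * z := by
      intro z hz q
      have h1 : ⁅z, q⁆ ∈ lc (⊤ : Subgroup Q) (c + 1) := comm_mem _ hz (Subgroup.mem_top q)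
      rw [h, Subgroup.mem_bot, commutatorElement_eq_one_iff_mul_comm] at h1
      exact h1
    have hfg : (lc (⊤ : Subgroup Q) c).FG := by
      obtain ⟨S, hS, hSf⟩ := Group.fg_iff.1 (inferInstance : Group.FG Q)
      obtain ⟨T, hT, h1, h2⟩ := lc_fg (⊤ : Subgroup Q) hSf hS c
      rw [h, sup_bot_eq] at h2
      exact (Subgroup.fg_iff _).2 ⟨T, le_antisymm ((Subgroup.closure_le _).2 h1) h2, hT⟩
    obtain ⟨n, hn, hnx⟩ : ∃ n : ℕ, 0 < n ∧ ∀ v ∈ lc (⊤ : Subgroup Q) c, v ^ n ≠ x := by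
      by_cases hxZ : x ∈ lc (⊤ : Subgroup Q) c
      · exact sub_resid (fun a ha b _ => hcen a ha b) hfg hxZ hx
      · exact ⟨1, one_pos, fun v hv hvx => hxZ (by rw [pow_one] at hvx; rwa [← hvx])⟩
    -- the subgroup of the `n`-th powers of the centre
    obtain ⟨Z, hZ⟩ : ∃ Z : Subgroup Q, ∀ y, y ∈ Z ↔ ∃ v ∈ lc (⊤ : Subgroup Q) c, v ^ n = y :=
      ⟨{ carrier := {y | ∃ v ∈ lc (⊤ : Subgroup Q) c, v ^ n = y}
         one_mem' := ⟨1, Subgroup.one_mem _, one_pow n⟩
         mul_mem' := by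
           rintro _ _ ⟨v, hv, rfl⟩ ⟨w, hw, rfl⟩
           exact ⟨v * w, Subgroup.mul_mem _ hv hw, (show Commute v w from hcen v hv w).mul_pow n⟩
         inv_mem' := by
           rintro _ ⟨v, hv, rfl⟩
           exact ⟨v⁻¹, Subgroup.inv_mem _ hv, inv_pow v n⟩ }, fun y => Iff.rfl⟩
    have hZn : Z.Normal := by
      refine ⟨fun y hy q => ?_⟩
      obtain ⟨v, hv, rfl⟩ := (hZ y).1 hy
      have h1 : q * v ^ n * q⁻¹ = v ^ n := by
        have h2 : Commute q (v ^ n) := (show Commute q v from (hcen v hv q).symm).pow_right n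
        rw [h2.eq, mul_inv_cancel_right]
      rw [h1]
      exact hy
    have hxZ : x ∉ Z := fun hxZ => by
      obtain ⟨v, hv, hvx⟩ := (hZ x).1 hxZ
      exact hnx v hv hvx
    obtain ⟨f, hf⟩ : ∃ f : Q →* Q ⧸ Z, f = QuotientGroup.mk' Z := ⟨_, rfl⟩
    have hfs : Function.Surjective f := by rw [hf]; exact QuotientGroup.mk'_surjective Z
    have hfx : f x ≠ 1 := by
      rw [hf, QuotientGroup.mk'_apply, Ne, QuotientGroup.eq_one_iff]
      exact hxZ
    have htop : (⊤ : Subgroup Q).map f = ⊤ := by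
      rw [← MonoidHom.range_eq_map]
      exact MonoidHom.range_eq_top.2 hfs
    have hl1 : lc (⊤ : Subgroup (Q ⧸ Z)) (c + 1) = ⊥ := by
      rw [← htop, ← lc_map, h, Subgroup.map_bot]
    have hl0 : ∀ y ∈ lc (⊤ : Subgroup (Q ⧸ Z)) c, y ^ n = 1 := by
      intro y hy
      rw [← htop, ← lc_map] at hy
      obtain ⟨v, hv, rfl⟩ := hy
      rw [← map_pow, hf, QuotientGroup.mk'_apply, QuotientGroup.eq_one_iff]
      exact (hZ _).2 ⟨v, hv, rfl⟩
    -- the subgroup of finite index of smaller class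
    obtain ⟨R, hR⟩ : ∃ R : Subgroup (Q ⧸ Z), R = pw ⊤ n 0 := ⟨_, rfl⟩
    have hRf : R.FiniteIndex := by
      rw [hR]
      exact pw_finiteIndex hn
    have hRc : lc R c = ⊥ := by
      have h1 := lc_le_pw_of (le_of_eq hR) c
      refine le_bot_iff.1 (h1.trans ?_)
      unfold pw
      rw [hl1, sup_bot_eq, Subgroup.closure_le]
      rintro _ ⟨y, hy, rfl⟩
      exact hl0 y hy
    by_cases hxR : f x ∈ R
    · have hRc' : lc (⊤ : Subgroup R) c = ⊥ := by
        have h1 : (lc (⊤ : Subgroup R) c).map R.subtype = ⊥ := by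
          rw [lc_map, ← MonoidHom.range_eq_map, Subgroup.range_subtype, hRc]
        exact (Subgroup.map_eq_bot_iff_of_injective _ R.subtype_injective).1 h1
      have hRfg : Group.FG R := inferInstance
      obtain ⟨M, hM, hxM⟩ := ih R hRc' ⟨f x, hxR⟩
        (fun h1 => hfx (congrArg Subtype.val h1))
      refine ⟨(M.map R.subtype).comap f, ?_, ?_⟩
      · have h1 : (M.map R.subtype).FiniteIndex := by
          refine ⟨?_⟩
          rw [Subgroup.index_map_subtype]
          exact mul_ne_zero hM.index_ne_zero hRf.index_ne_zero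
        refine ⟨?_⟩
        rw [Subgroup.index_comap_of_surjective _ hfs]
        exact h1.index_ne_zero
      · intro h1
        obtain ⟨y, hy, hyx⟩ := Subgroup.mem_comap.1 h1
        have h2 : y = ⟨f x, hxR⟩ := Subtype.ext hyx
        exact hxM (h2 ▸ hy)
    · refine ⟨R.comap f, ⟨?_⟩, fun h1 => hxR h1⟩
      rw [Subgroup.index_comap_of_surjective _ hfs]
      exact hRf.index_ne_zero

end nilpotent

end Pool.Agent.H.MP_59b15d_al.R
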